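import Mathlib
import Pool.Agent.H544.BC.R8

/-!
# Prime values with almost prime companions, for almost all constant terms

Let `P, Q_1, ..., Q_k` be non-constant integer polynomials, `P` with positive leading coefficient, such that no difference
`Q_i - P` is constant (for instance `Q_i(n) = P(n + h_i)` with `h_i ≠ 0`, if `P` has degree at least 2). For almost all
constants `c ≤ A`, `A` of the order of `x ^ deg P`, the primes `P(n) + c`, `n ≤ x`, for which all the companions
`Q_i(n) + c` have no prime factor up to `y` are counted by the expected asymptotic formula, for all `y` up to a power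
of `x`: the relative error is `2 ^ (-b)`, if `y ≤ x ^ (1 / (C b))`, up to an arbitrary power of `1 / log x`. In particular,
for almost all `c` without local obstruction there are `≫ x / (log x) ^ r` arguments `n ≤ x` for which `P(n) + c` is prime
and all the `Q_i(n) + c` have at most `r` prime factors.

The two families of the problem are the primes `(2 q n)² + 1` and `((2 n + 1) q)² + 4`. For a fixed prime `q` the theorem
applies to `P = (2 q X)²` and to companions such as `((2 X + 1) q)² + 3`, `((2 X + 3) q)² + 3` and `(2 q (X + h))²` (or the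
other way round); `c = 1` gives the two families of the problem, and the theorem is about almost all `c` of the order of `x²`
without local obstruction: there are at least `x / (log x) ^ r` arguments `n ≤ x` for which `(2 q n)² + c` is prime while the
neighbouring members `((2 m + 1) q)² + 3 + c` and `(2 q m)² + c` of both families have at most `r` prime factors.
-/

set_option autoImplicit false

namespace Pool.Agent.Results.MP_4b1228_nt.AlmostPrimeCompanions

open Finset Polynomial
open Pool.Agent.H544.BC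
open Pool.Agent.H373R2.T7 (pz Vz mem_pz lamP)
open Pool.Agent.H544.LD (om om_lt)

/-- the number of residues modulo `p` at which `P(n) + c` or one of the companions `Q_i(n) + c` is divisible by `p` -/
def omegaAll {k : ℕ} (P : ℤ[X]) (Q : Fin k → ℤ[X]) (c : ℤ) (p : ℕ) : ℕ :=
  #((range p).filter (fun n : ℕ => (p : ℤ) ∣ (P.eval (n : ℤ) + c) * ∏ i, ((Q i).eval (n : ℤ) + c)))

/-- the number of residues modulo `p` at which one of the companions `Q_i(n) + c` is divisible by `p` -/
def omegaCompanions {k : ℕ} (Q : Fin k → ℤ[X]) (c : ℤ) (p : ℕ) : ℕ :=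
  #((range p).filter (fun n : ℕ => (p : ℤ) ∣ ∏ i, ((Q i).eval (n : ℤ) + c)))

/-- the expected density of the primes `P(n) + c`, with weights `log`, for which the companions have no prime factor up to
`y`; the local factors of `P(n) + c` are taken up to `z` -/
noncomputable def expectedDensity {k : ℕ} (P : ℤ[X]) (Q : Fin k → ℤ[X]) (c : ℤ) (z y : ℕ) : ℝ :=
  (∏ p ∈ (Icc 1 z).filter Nat.Prime, (1 - (omegaAll P Q c p : ℝ) / p) / (1 - 1 / (p : ℝ))) *
    ∏ p ∈ (Icc 1 y).filter (fun p => p.Prime ∧ z < p), (1 - (omegaCompanions Q c p : ℝ) / p)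

open Classical in
/-- the primes `P(n) + c`, `n ≤ x`, for which no companion `Q_i(n) + c` has a prime factor up to `y`, with weights `log` -/
noncomputable def weightedCount {k : ℕ} (P : ℤ[X]) (Q : Fin k → ℤ[X]) (c : ℤ) (y x : ℕ) : ℝ :=
  ∑ n ∈ (Icc 1 x).filter (fun n : ℕ => (∃ q : ℕ, q.Prime ∧ P.eval (n : ℤ) + c = (q : ℤ)) ∧
    ∀ p : ℕ, p.Prime → p ≤ y → ∀ i, ¬ (p : ℤ) ∣ (Q i).eval (n : ℤ) + c), Real.log ((P.eval (n : ℤ) + c : ℤ) : ℝ)

open Classical in
/-- the `n ≤ x` for which `P(n) + c` is prime and each companion `Q_i(n) + c` is nonzero with at most `r` prime factors,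
counted with multiplicity -/
noncomputable def almostPrimeArguments {k : ℕ} (P : ℤ[X]) (Q : Fin k → ℤ[X]) (c : ℤ) (r x : ℕ) : Finset ℕ :=
  (Icc 1 x).filter (fun n : ℕ => (∃ q : ℕ, q.Prime ∧ P.eval (n : ℤ) + c = (q : ℤ)) ∧
    ∀ i, (Q i).eval (n : ℤ) + c ≠ 0 ∧ ((Q i).eval (n : ℤ) + c).natAbs.primeFactorsList.length ≤ r)

lemma toNat_prime (m : ℤ) : m.toNat.Prime ↔ ∃ q : ℕ, q.Prime ∧ m = (q : ℤ) := by
  constructor
  · intro h
    refine ⟨m.toNat, h, ?_⟩
    have := h.pos
    omega
  · rintro ⟨q, hq, rfl⟩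
    rwa [Int.toNat_natCast]

theorem result {k : ℕ} (P : ℤ[X]) (Q : Fin k → ℤ[X]) (hd : 1 ≤ P.natDegree) (hl : 0 < P.leadingCoeff)
    (hQ : ∀ i, 1 ≤ (Q i).natDegree) (hPQ : ∀ i, 1 ≤ (Q i - P).natDegree) :
    ∃ C r : ℕ, 1 ≤ C ∧ ∀ B U : ℕ, ∃ E0 : ℕ, ∀ E : ℕ, ∃ x0 : ℕ, ∀ x : ℕ, x0 ≤ x → ∀ A : ℕ,
      A ≤ B * x ^ P.natDegree → x ^ P.natDegree ≤ B * A →
      ∀ z : ℕ, Real.log x ^ E0 ≤ z → (z : ℝ) ≤ Real.log x ^ E →
      ∃ Bad ⊆ Icc 1 A, (#Bad : ℝ) ≤ A / Real.log x ^ U ∧ ∀ c ∈ Icc 1 A, c ∉ Bad →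
        (∀ p : ℕ, p.Prime → ∃ n : ℤ, ¬ (p : ℤ) ∣ (P.eval n + c) * ∏ i, ((Q i).eval n + c)) →
        (∀ b y : ℕ, 1 ≤ b → z ≤ y → y ^ (C * b) ≤ x →
          |weightedCount P Q c y x - expectedDensity P Q c z y * x| ≤
            ((1 / 2 : ℝ) ^ b + 1 / Real.log x ^ U) * (expectedDensity P Q c z y * x)) ∧
        (x : ℝ) / Real.log x ^ r ≤ #(almostPrimeArguments P Q c r x) := by
  classical
  obtain ⟨C, r, hC, hmain⟩ := main_two P Q hd hl hQ hPQ
  refine ⟨C, r, hC, fun B U => ?_⟩
  obtain ⟨E0, hE0⟩ := hmain B U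
  refine ⟨E0, fun E => ?_⟩
  obtain ⟨x0, hx0⟩ := hE0 E
  refine ⟨x0, fun x hx A hA1 hA2 z hz1 hz2 => ?_⟩
  obtain ⟨Bad, h1, h2, h3⟩ := hx0 x hx A hA1 hA2 z hz1 hz2
  refine ⟨Bad, h1, h2, fun c hc hcB hadm => ?_⟩
  have hadm' : ∀ p : ℕ, p.Prime → om (Gp0 P c * Hp0 Q c) p < p := by
    intro p hp
    obtain ⟨n, hn⟩ := hadm p hp
    apply om_lt _ p hp n
    rw [eval_mul, Gp0_eval, Hp0_eval]
    simp only [add_comm (c : ℤ)]
    exact hn
  obtain ⟨h4, h5⟩ := h3 c hc hcB hadm'
  have e1 : ∀ z y : ℕ, SS (Gp0 P c) (Hp0 Q c) z y = expectedDensity P Q c z y := by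
    intro z y
    unfold SS expectedDensity Vz
    rw [← prod_inv_distrib, ← prod_mul_distrib]
    congr 1
    · unfold pz
      apply prod_congr rfl
      intro p _
      rw [mul_comm, ← div_eq_mul_inv]
      congr 3
      unfold om omegaAll
      congr 1
      apply congrArg
      apply filter_congr
      intro n _
      rw [eval_mul, Gp0_eval, Hp0_eval]
      simp only [add_comm (c : ℤ)]
    · unfold pz
      rw [filter_filter]
      apply prod_congr rfl
      intro p _
      congr 2
      unfold om omegaCompanions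
      congr 1
      apply congrArg
      apply filter_congr
      intro n _
      rw [Hp0_eval]
      simp only [add_comm (c : ℤ)]
  have e2 : ∀ y : ℕ, SP (Gp0 P c) (Hp0 Q c) y x = weightedCount P Q c y x := by
    intro y
    rw [SP_eq]
    unfold PA weightedCount
    simp only [toNat_prime, add_comm (c : ℤ)]
    apply sum_congr rfl
    intro n hn
    rw [mem_filter] at hn
    obtain ⟨q, _, hq⟩ := hn.2.1
    rw [hq, Int.toNat_natCast, Int.cast_natCast]
  constructor
  · intro b y hb hzy hyx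
    have h6 := h4 b y hb hzy hyx
    rw [e1, e2, mul_comm (x : ℝ)] at h6
    exact h6
  · refine h5.trans (le_of_eq ?_)
    unfold AP almostPrimeArguments
    simp only [toNat_prime, add_comm (c : ℤ)]

end Pool.Agent.Results.MP_4b1228_nt.AlmostPrimeCompanions
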