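import Pool.Agent.H543.MQ.V.V4
import Pool.Agent.H543.MQ.U.Gold
import Pool.Agent.H543.MQ.R.R6

/-!
# Almost primes in both the Ankeny-Chowla-Hasse family and the Lang family, for all odd `q` up to a power

One of the numbers `(2 q n) ^ 2 + 1`, `((2 n + 1) q) ^ 2 + 4` has at most two prime factors and the
other one has at most `r` prime factors, simultaneously for all the elements of a bounded cluster of
arguments `n ≤ 2 M`, uniformly in all odd `q ≤ M ^ δ`.
-/

set_option autoImplicit false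

namespace Pool.Agent.Results.MP_4b1228_nt.AlmostPrimesForEveryQ

open Finset Filter Polynomial
open Pool.Agent.H543.DP (fv)

/-- The Ankeny-Chowla-Hasse family. -/
def first (q n : ℕ) : ℕ := (2 * q * n) ^ 2 + 1

/-- The Lang family. -/
def second (q n : ℕ) : ℕ := ((2 * n + 1) * q) ^ 2 + 4

/-- `u x` has at most two prime factors (with multiplicity), all of them `≥ M ^ (6 / 25)`, and `v x`
has at most `r` prime factors, all of them `≥ M ^ δ`. -/
def Good (u v : ℕ → ℕ) (δ : ℝ) (r M x : ℕ) : Prop :=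
  (u x).primeFactorsList.length ≤ 2 ∧
  (∀ p : ℕ, p.Prime → p ∣ u x → (M : ℝ) ^ (6 / 25 : ℝ) ≤ p) ∧
  (v x).primeFactorsList.length ≤ r ∧ ∀ p : ℕ, p.Prime → p ∣ v x → (M : ℝ) ^ δ ≤ p

open Classical in
/-- The number of the `n` in `(M, M + Y]` such that all `n + h`, `h ∈ H`, are good. -/
noncomputable def number (u v : ℕ → ℕ) (δ : ℝ) (r : ℕ) (H : Finset ℕ) (M Y : ℕ) : ℕ :=
  ((Ioc M (M + Y)).filter (fun n : ℕ => ∀ h ∈ H, Good u v δ r M (n + h))).card

open Classical in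
/-- the theorem for `u q n = ((2 n + e) q) ^ 2 + c` -/
theorem gen (c e : ℕ) (he : e ≤ 1) (hD : ¬ IsSquare ((0 : ℤ) ^ 2 - 4 * ((1 : ℕ) : ℤ) * c))
    (G : ℕ → ℤ[X]) (hGd : ∀ q, (G q).natDegree ≤ 2) (u v : ℕ → ℕ → ℕ)
    (hu : ∀ q n, u q n = ((2 * n + e) * q) ^ 2 + c)
    (hv : ∀ q n, ((v q n : ℕ) : ℤ) = (G q).eval (((2 * n + e) * q : ℕ) : ℤ))
    (hv0 : ∀ q n, v q n ≠ 0) (hvle : ∀ q n, v q n ≤ ((2 * n + e) * q + q) ^ 2 + 4)
    (hnf : ∀ q : ℕ, Odd q → ∀ p : ℕ, p.Prime → ∃ n : ℤ, ¬ (p : ℤ) ∣ (n ^ 2 + c) * (G q).eval n)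
    (hcop : ∀ q : ℕ, Odd q → ∀ p : ℕ, p.Prime → p ∣ 2 * q →
      ¬ (p : ℤ) ∣ (((e * q : ℕ) : ℤ) ^ 2 + c) * (G q).eval ((e * q : ℕ) : ℤ)) :
    ∃ δ₀ : ℝ, 0 < δ₀ ∧ ∃ C : ℝ, 0 < C ∧ ∀ m : ℕ, ∃ (K D r : ℕ) (δ : ℝ), 0 < δ ∧ δ ≤ 1 ∧
      (K : ℝ) ≤ Real.exp (Real.exp (C * (m + 1))) ∧
      ∀ᶠ M : ℕ in atTop, ∀ q : ℕ, Odd q → (q : ℝ) ≤ (M : ℝ) ^ δ →
        ∀ S : Finset ℕ, K ≤ S.card → (∀ h ∈ S, (h : ℝ) ≤ (M : ℝ) ^ δ) →
        ∀ Y : ℕ, (M : ℝ) ^ (1 - δ₀) ≤ Y → 2 * Y ≤ M →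
        ∃ H ⊆ S, H.card = m ∧ Y / Real.log M ^ D ≤ number (u q) (v q) δ r H M Y := by
  obtain ⟨δ₁, hδ₁, hδ₁1, hcl⟩ := Pool.Agent.H543.MQ.V.clu_poly_q 1 0 c le_rfl hD
  obtain ⟨C, hC, hcl⟩ := hcl 2
  refine ⟨δ₁ / 2, by positivity, C, hC, fun m => ?_⟩
  obtain ⟨K, D, δ, hδ, hK, h1, -⟩ := hcl m
  obtain ⟨r, hr⟩ : ∃ r : ℕ, 3 / δ ≤ r := exists_nat_ge _
  have hfv : ∀ x : ℤ, fv 1 0 c x = x ^ 2 + c := by
    intro x
    unfold fv
    push_cast
    ring
  refine ⟨K, D + 1, r, min (δ / 2) 1, lt_min (by positivity) one_pos, min_le_right _ _, hK, ?_⟩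
  obtain ⟨N₀, hN₀⟩ := eventually_atTop.1 h1
  have hT := tendsto_natCast_atTop_atTop (R := ℝ)
  have v1 : ∀ᶠ M : ℕ in atTop, (2 : ℝ) ≤ (M : ℝ) ^ (δ / 2) :=
    ((tendsto_rpow_atTop (by positivity)).comp hT).eventually_ge_atTop _
  have v2 : ∀ᶠ M : ℕ in atTop, (2 : ℝ) ≤ (M : ℝ) ^ (δ₁ / 2) :=
    ((tendsto_rpow_atTop (by positivity)).comp hT).eventually_ge_atTop _
  have v3 : ∀ᶠ M : ℕ in atTop, (3 : ℝ) ^ D ≤ Real.log (M : ℝ) :=
    (Real.tendsto_log_atTop.comp hT).eventually_ge_atTop _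
  filter_upwards [v1, v2, v3, eventually_ge_atTop (N₀ + 100)] with M w1 w2 w3 w4 q hqodd hqM S hS hSb
    Y hY1 hY2
  have hMr : (100 : ℝ) ≤ M := by exact_mod_cast (by omega : 100 ≤ M)
  have hM0 : (0 : ℝ) < M := by linarith
  have hM1 : (1 : ℝ) ≤ M := by linarith
  have hq0 : 0 < q := hqodd.pos
  have hqr : (1 : ℝ) ≤ q := by exact_mod_cast hq0
  have hqr0 : (0 : ℝ) < q := by linarith
  obtain ⟨N, hN⟩ : ∃ N : ℕ, N = (2 * M + e) * q := ⟨_, rfl⟩
  have hMN : 2 * M ≤ N := by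
    rw [hN]
    calc 2 * M ≤ (2 * M + e) * 1 := by omega
      _ ≤ _ := Nat.mul_le_mul_left _ hq0
  have hqN : 2 * q ≤ N := by
    rw [hN]
    exact Nat.mul_le_mul_right _ (by omega)
  have hMNr : (M : ℝ) ≤ N := by exact_mod_cast (by omega : M ≤ N)
  have hNr : (1 : ℝ) ≤ N := by linarith
  have hN0 : (0 : ℝ) < N := by linarith
  have hN3 : (N : ℝ) ≤ 3 * q * M := by
    have : N ≤ 3 * q * M := by
      rw [hN]
      calc (2 * M + e) * q ≤ (3 * M) * q := Nat.mul_le_mul_right _ (by omega)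
        _ = _ := by ring
    exact_mod_cast this
  have hpM : (M : ℝ) ^ (min (δ / 2) 1) ≤ (M : ℝ) ^ (δ / 2) :=
    Real.rpow_le_rpow_of_exponent_le hM1 (min_le_left _ _)
  have hpMN : (M : ℝ) ^ δ ≤ (N : ℝ) ^ δ := Real.rpow_le_rpow hM0.le hMNr hδ.le
  have hpM2 : (M : ℝ) ^ (δ / 2) * (M : ℝ) ^ (δ / 2) = (M : ℝ) ^ δ := by
    rw [← Real.rpow_add hM0]
    congr 1
    ring
  have hp0 : (0 : ℝ) < (M : ℝ) ^ (δ / 2) := by positivity
  -- the interval
  have hX1 : (N : ℝ) ^ (1 - δ₁) ≤ ((2 * q * Y : ℕ) : ℝ) := by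
    have e0 : (0 : ℝ) ≤ 1 - δ₁ := by linarith
    calc (N : ℝ) ^ (1 - δ₁) ≤ (3 * q * M : ℝ) ^ (1 - δ₁) := Real.rpow_le_rpow hN0.le hN3 e0
      _ = (3 * q : ℝ) ^ (1 - δ₁) * (M : ℝ) ^ (1 - δ₁) := Real.mul_rpow (by positivity) hM0.le
      _ ≤ (3 * q : ℝ) ^ (1 : ℝ) * (M : ℝ) ^ (1 - δ₁) := by
          apply mul_le_mul_of_nonneg_right _ (by positivity)
          exact Real.rpow_le_rpow_of_exponent_le (by linarith) (by linarith)
      _ = (3 / 2 * (M : ℝ) ^ (1 - δ₁)) * (2 * q) := by rw [Real.rpow_one]; ring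
      _ ≤ (Y : ℝ) * (2 * q) := by
          apply mul_le_mul_of_nonneg_right _ (by positivity)
          refine le_trans ?_ hY1
          have e1 : (M : ℝ) ^ (1 - δ₁ / 2) = (M : ℝ) ^ (δ₁ / 2) * (M : ℝ) ^ (1 - δ₁) := by
            rw [← Real.rpow_add hM0]
            congr 1
            ring
          rw [e1]
          apply mul_le_mul_of_nonneg_right _ (by positivity)
          linarith
      _ = _ := by push_cast; ring
  have hX2 : 2 * (2 * q * Y) ≤ N := by
    have h2 : 2 * (2 * q * Y) = (2 * (2 * Y)) * q := by ring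
    rw [h2, hN]
    exact Nat.mul_le_mul_right _ (by omega)
  obtain ⟨H, hH, hHm, hnum⟩ := hN₀ N (by omega) (G q) (hGd q) (by
      intro p hp
      obtain ⟨n, hn⟩ := hnf q hqodd p hp
      exact ⟨n, by rwa [hfv]⟩) (2 * q) (e * q) (by omega) (by
      push_cast
      calc (2 : ℝ) * q ≤ (M : ℝ) ^ (δ / 2) * (M : ℝ) ^ (δ / 2) :=
            mul_le_mul w1 (hqM.trans hpM) (by positivity) hp0.le
        _ = (M : ℝ) ^ δ := hpM2
        _ ≤ _ := hpMN) (by
      intro p hp hpq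
      rw [hfv]
      exact hcop q hqodd p hp hpq) S hS (by
      intro h hh
      refine (hSb h hh).trans (hpM.trans ?_)
      refine le_trans ?_ hpMN
      exact Real.rpow_le_rpow_of_exponent_le hM1 (by linarith)) (2 * q * Y) hX1 hX2
  refine ⟨H, hH, hHm, ?_⟩
  -- small shifts
  have hHb : ∀ h ∈ H, 2 * q * h ≤ N ∨ h ≤ M := by
    intro h hh
    right
    have h1 : (h : ℝ) ≤ (M : ℝ) ^ (1 : ℝ) := (hSb h (hH hh)).trans
      (Real.rpow_le_rpow_of_exponent_le hM1 (min_le_right _ _))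
    rw [Real.rpow_one] at h1
    exact_mod_cast h1
  have hHb' : ∀ h ∈ H, h ≤ M := by
    intro h hh
    have h1 : (h : ℝ) ≤ (M : ℝ) ^ (1 : ℝ) := (hSb h (hH hh)).trans
      (Real.rpow_le_rpow_of_exponent_le hM1 (min_le_right _ _))
    rw [Real.rpow_one] at h1
    exact_mod_cast h1
  -- the arguments
  have hinj : ((Ioc N (N + 2 * q * Y)).filter (fun n : ℕ => n % (2 * q) = (e * q) % (2 * q) ∧
      ∀ h ∈ H, Pool.Agent.H543.MQ.U.Gf 1 0 c (fun n => (G q).eval n) N δ (n + 2 * q * h))).card ≤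
      number (u q) (v q) (min (δ / 2) 1) r H M Y := by
    unfold number
    have hrep : ∀ n : ℕ, n % (2 * q) = (e * q) % (2 * q) → n = (2 * (n / (2 * q)) + e) * q := by
      intro n hn
      have h2 : (e * q) % (2 * q) = e * q := by
        apply Nat.mod_eq_of_lt
        exact Nat.mul_lt_mul_of_pos_right (by omega) hq0
      have h3 := Nat.div_add_mod n (2 * q)
      rw [hn, h2] at h3
      rw [← h3]
      have h4 : (2 * q * (n / (2 * q)) + e * q) / (2 * q) = n / (2 * q) := by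
        rw [h3]
      rw [h4]
      ring
    apply card_le_card_of_injOn (fun n => n / (2 * q))
    · intro n hn
      rw [mem_coe, mem_filter, mem_Ioc] at hn
      rw [mem_coe, mem_filter, mem_Ioc]
      obtain ⟨⟨hn1, hn2⟩, hn3, hn4⟩ := hn
      obtain ⟨k, hk⟩ : ∃ k : ℕ, k = n / (2 * q) := ⟨_, rfl⟩
      have hnk := hrep n hn3
      show (M < n / (2 * q) ∧ n / (2 * q) ≤ M + Y) ∧ ∀ h ∈ H, Good (u q) (v q) (min (δ / 2) 1) r M
        (n / (2 * q) + h)
      rw [← hk] at hnk ⊢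
      have hk1 : M < k := by
        rw [hN, hnk] at hn1
        have := lt_of_mul_lt_mul_right hn1 (Nat.zero_le _)
        omega
      have hk2 : k ≤ M + Y := by
        have h5 : (2 * k + e) * q ≤ (2 * M + e + 2 * Y) * q := by
          rw [← hnk]
          refine hn2.trans (le_of_eq ?_)
          rw [hN]
          ring
        have := le_of_mul_le_mul_right h5 hq0
        omega
      refine ⟨⟨hk1, hk2⟩, fun h hh => ?_⟩
      obtain ⟨g1, g2, g3⟩ := hn4 h hh
      have hx : n + 2 * q * h = (2 * (k + h) + e) * q := by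
        rw [hnk]
        ring
      rw [hx] at g1 g2 g3
      have hux : fv 1 0 c (((2 * (k + h) + e) * q : ℕ) : ℤ) = ((u q (k + h) : ℕ) : ℤ) := by
        rw [hfv, hu]
        push_cast
        ring
      rw [hux] at g1 g2
      rw [Int.natAbs_natCast] at g1
      have hvx : ∀ p : ℕ, p ∣ v q (k + h) →
          (p : ℤ) ∣ (fun n => (G q).eval n) (((2 * (k + h) + e) * q : ℕ) : ℤ) := by
        intro p hp
        show (p : ℤ) ∣ (G q).eval (((2 * (k + h) + e) * q : ℕ) : ℤ)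
        rw [← hv]
        exact_mod_cast hp
      have hMδ : (M : ℝ) ^ (min (δ / 2) 1) ≤ (N : ℝ) ^ δ := by
        refine hpM.trans (le_trans ?_ hpMN)
        exact Real.rpow_le_rpow_of_exponent_le hM1 (by linarith)
      refine ⟨g1, fun p hp hpd => ?_, ?_, fun p hp hpd => ?_⟩
      · refine le_trans ?_ (g2 p hp (by exact_mod_cast hpd))
        exact Real.rpow_le_rpow hM0.le hMNr (by norm_num)
      · apply Pool.Agent.H543.MQ.U.om_r _ N δ 3 r (hv0 _ _) (by omega) hδ ?_ hr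
        · intro p hp hpd
          exact g3 p hp (hvx p hpd)
        · have h5 : v q (k + h) ≤ (5 * N) ^ 2 + 4 := by
            refine (hvle q (k + h)).trans ?_
            have h6 : (2 * (k + h) + e) * q + q ≤ 5 * N := by
              have h7 : (2 * (k + h) + e) * q + q = (2 * (k + h) + e + 1) * q := by ring
              rw [h7, hN]
              have h8 : 2 * (k + h) + e + 1 ≤ 5 * (2 * M + e) := by
                have := hHb' h hh
                omega
              calc (2 * (k + h) + e + 1) * q ≤ (5 * (2 * M + e)) * q := Nat.mul_le_mul_right _ h8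
                _ = _ := by ring
            have := Nat.pow_le_pow_left h6 2
            omega
          have h6 : (v q (k + h) : ℝ) ≤ (N : ℝ) ^ (3 : ℕ) := by
            have h7 : (5 * N) ^ 2 + 4 ≤ N ^ 3 := by
              have h8 : 100 ≤ N := by omega
              have h9 : N ^ 3 = N * N ^ 2 := by ring
              have h10 : (5 * N) ^ 2 = 25 * N ^ 2 := by ring
              have h11 : 100 * N ^ 2 ≤ N * N ^ 2 := Nat.mul_le_mul_right _ h8
              have h12 : 1 ≤ N ^ 2 := Nat.one_le_pow _ _ (by omega)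
              omega
            exact_mod_cast h5.trans h7
          refine h6.trans (le_of_eq ?_)
          rw [← Real.rpow_natCast]
          norm_num
      · exact hMδ.trans (g3 p hp (hvx p hpd))
    · intro n hn n' hn' hnn
      rw [mem_coe, mem_filter] at hn hn'
      have h1 := hrep n hn.2.1
      have h2 := hrep n' hn'.2.1
      have h3 : n / (2 * q) = n' / (2 * q) := hnn
      rw [h1, h2, h3]
  have hlogN : Real.log N ≤ 3 * Real.log M := by
    have h2 : (N : ℝ) ≤ (M : ℝ) ^ (3 : ℕ) := by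
      have h3 : (q : ℝ) ≤ M := by
        have := hqM.trans (Real.rpow_le_rpow_of_exponent_le hM1 (min_le_right (δ / 2) 1))
        rwa [Real.rpow_one] at this
      calc (N : ℝ) ≤ 3 * q * M := hN3
        _ ≤ M * M * M := by
            apply mul_le_mul_of_nonneg_right _ hM0.le
            nlinarith
        _ = _ := by ring
    calc Real.log N ≤ Real.log ((M : ℝ) ^ (3 : ℕ)) := Real.log_le_log hN0 h2
      _ = _ := by rw [Real.log_pow]; norm_num
  have hlM : 0 < Real.log M := Real.log_pos (by linarith)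
  have hlN : 0 < Real.log N := Real.log_pos (by linarith)
  have hfin : (Y : ℝ) / Real.log M ^ (D + 1) ≤
      ((2 * q * Y : ℕ) : ℝ) / (((2 * q : ℕ) : ℝ) * Real.log N ^ D) := by
    rw [div_le_div_iff₀ (by positivity) (by positivity)]
    push_cast
    have h2 : Real.log N ^ D ≤ Real.log M ^ (D + 1) := by
      calc Real.log N ^ D ≤ (3 * Real.log M) ^ D := pow_le_pow_left₀ hlN.le hlogN _
        _ = 3 ^ D * Real.log M ^ D := by rw [mul_pow]
        _ ≤ Real.log M * Real.log M ^ D := mul_le_mul_of_nonneg_right w3 (by positivity)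
        _ = _ := by ring
    have h3 : (0 : ℝ) ≤ 2 * q * Y := by positivity
    calc (Y : ℝ) * (2 * q * Real.log N ^ D) = (2 * q * Y) * Real.log N ^ D := by ring
      _ ≤ (2 * q * Y) * Real.log M ^ (D + 1) := mul_le_mul_of_nonneg_left h2 h3
  refine hfin.trans (hnum.trans ?_)
  exact_mod_cast hinj

open Classical in
/-- the right order for `u q n = ((2 n + e) q) ^ 2 + c` -/
theorem gen0 (c e d : ℕ) (he : e ≤ 1) (hD : ¬ IsSquare ((0 : ℤ) ^ 2 - 4 * ((1 : ℕ) : ℤ) * c))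
    (G : ℕ → ℤ[X]) (hGd : ∀ q, (G q).natDegree ≤ 2) (u v : ℕ → ℕ → ℕ)
    (hu : ∀ q n, u q n = ((2 * n + e) * q) ^ 2 + c)
    (hv : ∀ q n, ((v q n : ℕ) : ℤ) = (G q).eval (((2 * n + e) * q : ℕ) : ℤ))
    (hv0 : ∀ q n, v q n ≠ 0) (hvle : ∀ q n, v q n ≤ ((2 * n + e) * q + q) ^ 2 + 4)
    (hnf : ∀ q : ℕ, Odd q → ∀ p : ℕ, p.Prime → ∃ n : ℤ, ¬ (p : ℤ) ∣ (n ^ 2 + c) * (G q).eval n)
    (hcop : ∀ q : ℕ, Odd q → ∀ p : ℕ, p.Prime → p ∣ 2 * q →
      ¬ (p : ℤ) ∣ (((e * q : ℕ) : ℤ) ^ 2 + c) * (G q).eval ((e * q : ℕ) : ℤ))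
    (hc0 : 0 < c) (hd0 : 0 < d) (s : ℕ → ℤ) (hGs : ∀ q n, (G q).eval n = (n + s q) ^ 2 + d) :
    ∃ δ₀ : ℝ, 0 < δ₀ ∧ ∃ (r : ℕ) (δ k : ℝ), 0 < δ ∧ δ ≤ 1 ∧ 0 < k ∧
      ∀ᶠ M : ℕ in atTop, ∀ q : ℕ, Odd q → (q : ℝ) ≤ (M : ℝ) ^ δ →
        ∀ Y : ℕ, (M : ℝ) ^ (1 - δ₀) ≤ Y → 2 * Y ≤ M →
        k * (Y / Real.log M ^ 2) ≤ number (u q) (v q) δ r {0} M Y := by
  obtain ⟨δ₁, hδ₁, hδ₁1, hcl⟩ := Pool.Agent.H543.MQ.R.one_poly_q 1 0 c le_rfl hD
  obtain ⟨δ, c1, hδ, hc1, h1⟩ := hcl 2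
  have hnsq : ∀ u : ℤ, 0 < u → ¬ IsSquare (-u) := by
    rintro u hu ⟨s, hs⟩
    have := mul_self_nonneg s
    omega
  have hdQ : ∀ u : ℤ, 0 < (Pool.Agent.Y882.SI.QF u).natDegree := by
    intro u
    unfold Pool.Agent.Y882.SI.QF
    rw [natDegree_X_pow_add_C]
    norm_num
  obtain ⟨cP, hcP, hP⟩ := Pool.Agent.H543.MQ.R.prod_low_unif 4 2
    ![Pool.Agent.Y882.SI.QF c, Pool.Agent.Y882.SI.QF d] (by
      intro i
      fin_cases i
      · exact Pool.Agent.Y882.SI.QF_irred c (hnsq c (by exact_mod_cast hc0))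
      · exact Pool.Agent.Y882.SI.QF_irred d (hnsq d (by exact_mod_cast hd0))) (by
      intro i
      fin_cases i
      · exact hdQ c
      · exact hdQ d)
  refine ⟨δ₁ / 2, by positivity, ?_⟩
  obtain ⟨r, hr⟩ : ∃ r : ℕ, 3 / δ ≤ r := exists_nat_ge _
  have hfv : ∀ x : ℤ, fv 1 0 c x = x ^ 2 + c := by
    intro x
    unfold fv
    push_cast
    ring
  refine ⟨r, min (δ / 2) 1, c1 * cP / 9, lt_min (by positivity) one_pos, min_le_right _ _,
    by positivity, ?_⟩
  obtain ⟨N₀, hN₀⟩ := eventually_atTop.1 h1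
  have hT := tendsto_natCast_atTop_atTop (R := ℝ)
  have v1 : ∀ᶠ M : ℕ in atTop, (2 : ℝ) ≤ (M : ℝ) ^ (δ / 2) :=
    ((tendsto_rpow_atTop (by positivity)).comp hT).eventually_ge_atTop _
  have v2 : ∀ᶠ M : ℕ in atTop, (2 : ℝ) ≤ (M : ℝ) ^ (δ₁ / 2) :=
    ((tendsto_rpow_atTop (by positivity)).comp hT).eventually_ge_atTop _
  filter_upwards [v1, v2, eventually_ge_atTop (N₀ + 100)] with M w1 w2 w4 q hqodd hqM Y hY1 hY2
  have hMr : (100 : ℝ) ≤ M := by exact_mod_cast (by omega : 100 ≤ M)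
  have hM0 : (0 : ℝ) < M := by linarith
  have hM1 : (1 : ℝ) ≤ M := by linarith
  have hq0 : 0 < q := hqodd.pos
  have hqr : (1 : ℝ) ≤ q := by exact_mod_cast hq0
  have hqr0 : (0 : ℝ) < q := by linarith
  obtain ⟨N, hN⟩ : ∃ N : ℕ, N = (2 * M + e) * q := ⟨_, rfl⟩
  have hMN : 2 * M ≤ N := by
    rw [hN]
    calc 2 * M ≤ (2 * M + e) * 1 := by omega
      _ ≤ _ := Nat.mul_le_mul_left _ hq0
  have hqN : 2 * q ≤ N := by
    rw [hN]
    exact Nat.mul_le_mul_right _ (by omega)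
  have hMNr : (M : ℝ) ≤ N := by exact_mod_cast (by omega : M ≤ N)
  have hNr : (1 : ℝ) ≤ N := by linarith
  have hN0 : (0 : ℝ) < N := by linarith
  have hN3 : (N : ℝ) ≤ 3 * q * M := by
    have : N ≤ 3 * q * M := by
      rw [hN]
      calc (2 * M + e) * q ≤ (3 * M) * q := Nat.mul_le_mul_right _ (by omega)
        _ = _ := by ring
    exact_mod_cast this
  have hpM : (M : ℝ) ^ (min (δ / 2) 1) ≤ (M : ℝ) ^ (δ / 2) :=
    Real.rpow_le_rpow_of_exponent_le hM1 (min_le_left _ _)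
  have hpMN : (M : ℝ) ^ δ ≤ (N : ℝ) ^ δ := Real.rpow_le_rpow hM0.le hMNr hδ.le
  have hpM2 : (M : ℝ) ^ (δ / 2) * (M : ℝ) ^ (δ / 2) = (M : ℝ) ^ δ := by
    rw [← Real.rpow_add hM0]
    congr 1
    ring
  have hp0 : (0 : ℝ) < (M : ℝ) ^ (δ / 2) := by positivity
  -- the interval
  have hX1 : (N : ℝ) ^ (1 - δ₁) ≤ ((2 * q * Y : ℕ) : ℝ) := by
    have e0 : (0 : ℝ) ≤ 1 - δ₁ := by linarith
    calc (N : ℝ) ^ (1 - δ₁) ≤ (3 * q * M : ℝ) ^ (1 - δ₁) := Real.rpow_le_rpow hN0.le hN3 e0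
      _ = (3 * q : ℝ) ^ (1 - δ₁) * (M : ℝ) ^ (1 - δ₁) := Real.mul_rpow (by positivity) hM0.le
      _ ≤ (3 * q : ℝ) ^ (1 : ℝ) * (M : ℝ) ^ (1 - δ₁) := by
          apply mul_le_mul_of_nonneg_right _ (by positivity)
          exact Real.rpow_le_rpow_of_exponent_le (by linarith) (by linarith)
      _ = (3 / 2 * (M : ℝ) ^ (1 - δ₁)) * (2 * q) := by rw [Real.rpow_one]; ring
      _ ≤ (Y : ℝ) * (2 * q) := by
          apply mul_le_mul_of_nonneg_right _ (by positivity)
          refine le_trans ?_ hY1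
          have e1 : (M : ℝ) ^ (1 - δ₁ / 2) = (M : ℝ) ^ (δ₁ / 2) * (M : ℝ) ^ (1 - δ₁) := by
            rw [← Real.rpow_add hM0]
            congr 1
            ring
          rw [e1]
          apply mul_le_mul_of_nonneg_right _ (by positivity)
          linarith
      _ = _ := by push_cast; ring
  have hX2 : 2 * (2 * q * Y) ≤ N := by
    have h2 : 2 * (2 * q * Y) = (2 * (2 * Y)) * q := by ring
    rw [h2, hN]
    exact Nat.mul_le_mul_right _ (by omega)
  have hnum := hN₀ N (by omega) (G q) (hGd q) (by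
      intro p hp
      obtain ⟨n, hn⟩ := hnf q hqodd p hp
      exact ⟨n, by rwa [hfv]⟩) (2 * q) (e * q) (by omega) (by
      push_cast
      calc (2 : ℝ) * q ≤ (M : ℝ) ^ (δ / 2) * (M : ℝ) ^ (δ / 2) :=
            mul_le_mul w1 (hqM.trans hpM) (by positivity) hp0.le
        _ = (M : ℝ) ^ δ := hpM2
        _ ≤ _ := hpMN) (by
      intro p hp hpq
      rw [hfv]
      exact hcop q hqodd p hp hpq) (2 * q * Y) hX1 hX2
  obtain ⟨H, hH⟩ : ∃ H : Finset ℕ, H = {0} := ⟨_, rfl⟩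
  -- small shifts
  have hHb' : ∀ h ∈ H, h ≤ M := by
    intro h hh
    rw [hH, mem_singleton] at hh
    omega
  -- the arguments
  have hinj : ((Ioc N (N + 2 * q * Y)).filter (fun n : ℕ => n % (2 * q) = (e * q) % (2 * q) ∧
      ∀ h ∈ H, Pool.Agent.H543.MQ.U.Gf 1 0 c (fun n => (G q).eval n) N δ (n + 2 * q * h))).card ≤
      number (u q) (v q) (min (δ / 2) 1) r H M Y := by
    unfold number
    have hrep : ∀ n : ℕ, n % (2 * q) = (e * q) % (2 * q) → n = (2 * (n / (2 * q)) + e) * q := by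
      intro n hn
      have h2 : (e * q) % (2 * q) = e * q := by
        apply Nat.mod_eq_of_lt
        exact Nat.mul_lt_mul_of_pos_right (by omega) hq0
      have h3 := Nat.div_add_mod n (2 * q)
      rw [hn, h2] at h3
      rw [← h3]
      have h4 : (2 * q * (n / (2 * q)) + e * q) / (2 * q) = n / (2 * q) := by
        rw [h3]
      rw [h4]
      ring
    apply card_le_card_of_injOn (fun n => n / (2 * q))
    · intro n hn
      rw [mem_coe, mem_filter, mem_Ioc] at hn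
      rw [mem_coe, mem_filter, mem_Ioc]
      obtain ⟨⟨hn1, hn2⟩, hn3, hn4⟩ := hn
      obtain ⟨k, hk⟩ : ∃ k : ℕ, k = n / (2 * q) := ⟨_, rfl⟩
      have hnk := hrep n hn3
      show (M < n / (2 * q) ∧ n / (2 * q) ≤ M + Y) ∧ ∀ h ∈ H, Good (u q) (v q) (min (δ / 2) 1) r M
        (n / (2 * q) + h)
      rw [← hk] at hnk ⊢
      have hk1 : M < k := by
        rw [hN, hnk] at hn1
        have := lt_of_mul_lt_mul_right hn1 (Nat.zero_le _)
        omega
      have hk2 : k ≤ M + Y := by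
        have h5 : (2 * k + e) * q ≤ (2 * M + e + 2 * Y) * q := by
          rw [← hnk]
          refine hn2.trans (le_of_eq ?_)
          rw [hN]
          ring
        have := le_of_mul_le_mul_right h5 hq0
        omega
      refine ⟨⟨hk1, hk2⟩, fun h hh => ?_⟩
      obtain ⟨g1, g2, g3⟩ := hn4 h hh
      have hx : n + 2 * q * h = (2 * (k + h) + e) * q := by
        rw [hnk]
        ring
      rw [hx] at g1 g2 g3
      have hux : fv 1 0 c (((2 * (k + h) + e) * q : ℕ) : ℤ) = ((u q (k + h) : ℕ) : ℤ) := by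
        rw [hfv, hu]
        push_cast
        ring
      rw [hux] at g1 g2
      rw [Int.natAbs_natCast] at g1
      have hvx : ∀ p : ℕ, p ∣ v q (k + h) →
          (p : ℤ) ∣ (fun n => (G q).eval n) (((2 * (k + h) + e) * q : ℕ) : ℤ) := by
        intro p hp
        show (p : ℤ) ∣ (G q).eval (((2 * (k + h) + e) * q : ℕ) : ℤ)
        rw [← hv]
        exact_mod_cast hp
      have hMδ : (M : ℝ) ^ (min (δ / 2) 1) ≤ (N : ℝ) ^ δ := by
        refine hpM.trans (le_trans ?_ hpMN)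
        exact Real.rpow_le_rpow_of_exponent_le hM1 (by linarith)
      refine ⟨g1, fun p hp hpd => ?_, ?_, fun p hp hpd => ?_⟩
      · refine le_trans ?_ (g2 p hp (by exact_mod_cast hpd))
        exact Real.rpow_le_rpow hM0.le hMNr (by norm_num)
      · apply Pool.Agent.H543.MQ.U.om_r _ N δ 3 r (hv0 _ _) (by omega) hδ ?_ hr
        · intro p hp hpd
          exact g3 p hp (hvx p hpd)
        · have h5 : v q (k + h) ≤ (5 * N) ^ 2 + 4 := by
            refine (hvle q (k + h)).trans ?_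
            have h6 : (2 * (k + h) + e) * q + q ≤ 5 * N := by
              have h7 : (2 * (k + h) + e) * q + q = (2 * (k + h) + e + 1) * q := by ring
              rw [h7, hN]
              have h8 : 2 * (k + h) + e + 1 ≤ 5 * (2 * M + e) := by
                have := hHb' h hh
                omega
              calc (2 * (k + h) + e + 1) * q ≤ (5 * (2 * M + e)) * q := Nat.mul_le_mul_right _ h8
                _ = _ := by ring
            have := Nat.pow_le_pow_left h6 2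
            omega
          have h6 : (v q (k + h) : ℝ) ≤ (N : ℝ) ^ (3 : ℕ) := by
            have h7 : (5 * N) ^ 2 + 4 ≤ N ^ 3 := by
              have h8 : 100 ≤ N := by omega
              have h9 : N ^ 3 = N * N ^ 2 := by ring
              have h10 : (5 * N) ^ 2 = 25 * N ^ 2 := by ring
              have h11 : 100 * N ^ 2 ≤ N * N ^ 2 := Nat.mul_le_mul_right _ h8
              have h12 : 1 ≤ N ^ 2 := Nat.one_le_pow _ _ (by omega)
              omega
            exact_mod_cast h5.trans h7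
          refine h6.trans (le_of_eq ?_)
          rw [← Real.rpow_natCast]
          norm_num
      · exact hMδ.trans (g3 p hp (hvx p hpd))
    · intro n hn n' hn' hnn
      rw [mem_coe, mem_filter] at hn hn'
      have h1 := hrep n hn.2.1
      have h2 := hrep n' hn'.2.1
      have h3 : n / (2 * q) = n' / (2 * q) := hnn
      rw [h1, h2, h3]
  have hlogN : Real.log N ≤ 3 * Real.log M := by
    have h2 : (N : ℝ) ≤ (M : ℝ) ^ (3 : ℕ) := by
      have h3 : (q : ℝ) ≤ M := by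
        have := hqM.trans (Real.rpow_le_rpow_of_exponent_le hM1 (min_le_right (δ / 2) 1))
        rwa [Real.rpow_one] at this
      calc (N : ℝ) ≤ 3 * q * M := hN3
        _ ≤ M * M * M := by
            apply mul_le_mul_of_nonneg_right _ hM0.le
            nlinarith
        _ = _ := by ring
    calc Real.log N ≤ Real.log ((M : ℝ) ^ (3 : ℕ)) := Real.log_le_log hN0 h2
      _ = _ := by rw [Real.log_pow]; norm_num
  have hlM : 0 < Real.log M := Real.log_pos (by linarith)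
  have hlN : 0 < Real.log N := Real.log_pos (by linarith)
  -- the product over the primes
  obtain ⟨F, hFdef⟩ : ∃ F : ℤ → ℤ, F = fun n => fv 1 0 c n * (G q).eval n := ⟨_, rfl⟩
  have hF1 : F = fun n => ((X ^ 2 + C (c : ℤ)) * G q : ℤ[X]).eval n := by
    rw [hFdef]
    funext n
    rw [hfv, eval_mul, eval_add, eval_pow, eval_X, eval_C]
  have hF2 : F = fun n => ((n + 0) ^ 2 + (c : ℤ)) * ((n + s q) ^ 2 + (d : ℤ)) := by
    rw [hFdef]
    funext n
    rw [hfv, hGs, add_zero]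
  have hFs : Pool.Agent.H543.MQ.U.Sys0 4 F := by
    rw [hF1]
    apply Pool.Agent.H543.MQ.U.sys0_poly
    · have h2 := natDegree_mul_le (p := (X ^ 2 + C (c : ℤ) : ℤ[X])) (q := G q)
      have h3 : (X ^ 2 + C (c : ℤ) : ℤ[X]).natDegree ≤ 2 := by compute_degree
      have h4 := hGd q
      omega
    · intro p hp
      obtain ⟨n, hn⟩ := hnf q hqodd p hp
      refine ⟨n, ?_⟩
      rw [eval_mul, eval_add, eval_pow, eval_X, eval_C]
      exact hn
  have hPN := hP F hFs (by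
    intro p hp
    rw [hF2, Fin.sum_univ_two]
    exact Pool.Agent.H543.MQ.R.rt_shift c d 0 (s q) p hp) N (by omega)
  rw [← hFdef] at hnum
  have hrt : ∀ p : ℕ, p.Prime → 0 ≤ 1 - (Pool.Agent.Y677.RSZ.rt F p : ℝ) / p ∧
      1 - (Pool.Agent.Y677.RSZ.rt F p : ℝ) / p ≤ 1 := by
    intro p hp
    have hp0 : (0 : ℝ) < p := by exact_mod_cast hp.pos
    have h1 := (hFs.root p hp).2
    have h2 : (Pool.Agent.Y677.RSZ.rt F p : ℝ) / p ≤ 1 := by
      rw [div_le_one hp0]
      exact_mod_cast h1.le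
    have h3 : 0 ≤ (Pool.Agent.Y677.RSZ.rt F p : ℝ) / p := by positivity
    constructor <;> linarith
  have hPP : cP / Real.log N ^ 2 ≤ ∏ p ∈ Pool.Agent.TH423.SH.PS (2 * q) N,
      (1 - (Pool.Agent.Y677.RSZ.rt F p : ℝ) / p) := by
    refine hPN.trans ?_
    have hsub : Pool.Agent.TH423.SH.PS (2 * q) N ⊆ (Icc 1 N).filter Nat.Prime := by
      intro p hp
      unfold Pool.Agent.TH423.SH.PS at hp
      rw [mem_filter] at hp ⊢
      exact ⟨hp.1, hp.2.1⟩
    rw [← prod_sdiff hsub]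
    refine (mul_le_mul_of_nonneg_right ?_ (prod_nonneg fun p hp =>
      (hrt p (mem_filter.1 (hsub hp)).2).1)).trans (le_of_eq (one_mul _))
    apply prod_le_one
    · intro p hp
      exact (hrt p (mem_filter.1 (mem_sdiff.1 hp).1).2).1
    · intro p hp
      exact (hrt p (mem_filter.1 (mem_sdiff.1 hp).1).2).2
  have hcard : ((Ioc N (N + 2 * q * Y)).filter (fun n : ℕ => n % (2 * q) = (e * q) % (2 * q) ∧
      Pool.Agent.H543.MQ.U.Gf 1 0 c (fun n => (G q).eval n) N δ n)).card ≤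
      ((Ioc N (N + 2 * q * Y)).filter (fun n : ℕ => n % (2 * q) = (e * q) % (2 * q) ∧
      ∀ h ∈ H, Pool.Agent.H543.MQ.U.Gf 1 0 c (fun n => (G q).eval n) N δ (n + 2 * q * h))).card := by
    apply card_le_card
    intro n hn
    rw [mem_filter] at hn ⊢
    refine ⟨hn.1, hn.2.1, fun h hh => ?_⟩
    rw [hH, mem_singleton] at hh
    rw [hh, mul_zero, add_zero]
    exact hn.2.2
  have h9 : Real.log N ^ 2 ≤ 9 * Real.log M ^ 2 := by
    calc Real.log N ^ 2 ≤ (3 * Real.log M) ^ 2 := pow_le_pow_left₀ hlN.le hlogN _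
      _ = _ := by ring
  have hY0 : (0 : ℝ) ≤ Y := Nat.cast_nonneg _
  have hq2 : ((2 * q * Y : ℕ) : ℝ) / ((2 * q : ℕ) : ℝ) = Y := by
    push_cast
    field_simp
  rw [hq2] at hnum
  rw [← hH]
  calc c1 * cP / 9 * (Y / Real.log M ^ 2) = c1 * cP * (Y / (9 * Real.log M ^ 2)) := by
        field_simp
    _ ≤ c1 * cP * (Y / Real.log N ^ 2) := by
        apply mul_le_mul_of_nonneg_left _ (by positivity)
        exact div_le_div_of_nonneg_left hY0 (by positivity) h9
    _ = c1 * (Y * (cP / Real.log N ^ 2)) := by ring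
    _ ≤ c1 * (Y * ∏ p ∈ Pool.Agent.TH423.SH.PS (2 * q) N,
        (1 - (Pool.Agent.Y677.RSZ.rt F p : ℝ) / p)) := by
        apply mul_le_mul_of_nonneg_left _ hc1.le
        exact mul_le_mul_of_nonneg_left hPP hY0
    _ ≤ _ := hnum
    _ ≤ _ := by exact_mod_cast hcard.trans hinj

theorem not_fixed (q : ℕ) (hq : Odd q) (p : ℕ) (hp : p.Prime) :
    ∃ n : ℕ, ¬ p ∣ first q n * second q n := by
  by_cases h1 : p ∣ q ^ 2 + 4
  · have hq2 : ¬ 2 ∣ q ^ 2 + 4 := by
      obtain ⟨k, rfl⟩ := hq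
      intro h
      have : (2 * k + 1) ^ 2 + 4 = 2 * (2 * k ^ 2 + 2 * k + 2) + 1 := by ring
      omega
    have hq3 : ¬ 3 ∣ q ^ 2 + 4 := by
      intro h
      have h2 : (q ^ 2 + 4) % 3 = 0 := Nat.mod_eq_zero_of_dvd h
      have h3 : q % 3 = 0 ∨ q % 3 = 1 ∨ q % 3 = 2 := by omega
      rcases h3 with h3 | h3 | h3 <;> simp [Nat.pow_mod, Nat.add_mod, h3] at h2
    by_cases hp5 : p = 5
    · subst hp5
      refine ⟨2, fun h => ?_⟩
      rcases (Nat.Prime.dvd_mul hp).1 h with h | h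
      · unfold first at h
        have e : (2 * q * 2) ^ 2 + 1 = 16 * (q ^ 2 + 4) - 63 := by
          have : (2 * q * 2) ^ 2 = 16 * q ^ 2 := by ring
          omega
        have h2 := h1
        omega
      · unfold second at h
        have e : ((2 * 2 + 1) * q) ^ 2 = 25 * q ^ 2 := by ring
        omega
    · refine ⟨1, fun h => ?_⟩
      have hc : ∀ c : ℕ, p ∣ c → c ≠ 0 → c ∣ 480 → False := by
        intro c hpc _ hc
        have h4 : p ∣ 480 := hpc.trans hc
        have h5 : p ∣ 2 ^ 5 * (3 * 5) := by norm_num; exact h4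
        rcases (Nat.Prime.dvd_mul hp).1 h5 with h6 | h6
        · have := (Nat.prime_dvd_prime_iff_eq hp Nat.prime_two).1 (hp.dvd_of_dvd_pow h6)
          exact hq2 (this ▸ h1)
        · rcases (Nat.Prime.dvd_mul hp).1 h6 with h7 | h7
          · have := (Nat.prime_dvd_prime_iff_eq hp Nat.prime_three).1 h7
            exact hq3 (this ▸ h1)
          · exact hp5 ((Nat.prime_dvd_prime_iff_eq hp (by norm_num)).1 h7)
      rcases (Nat.Prime.dvd_mul hp).1 h with h | h
      · unfold first at h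
        have e : 4 * (q ^ 2 + 4) = (2 * q * 1) ^ 2 + 1 + 15 := by ring
        have h2 : p ∣ 15 := by
          have := (Nat.dvd_add_right h).1 (e ▸ Dvd.dvd.mul_left h1 4)
          exact this
        exact hc 15 h2 (by norm_num) (by norm_num)
      · unfold second at h
        have e : 9 * (q ^ 2 + 4) = ((2 * 1 + 1) * q) ^ 2 + 4 + 32 := by ring
        have h2 : p ∣ 32 := by
          have := (Nat.dvd_add_right h).1 (e ▸ Dvd.dvd.mul_left h1 9)
          exact this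
        exact hc 32 h2 (by norm_num) (by norm_num)
  · refine ⟨0, fun h => h1 ?_⟩
    rcases (Nat.Prime.dvd_mul hp).1 h with h | h
    · unfold first at h
      norm_num at h
      exact absurd h hp.one_lt.ne'
    · unfold second at h
      norm_num at h
      exact h

theorem cop (q : ℕ) (hq : Odd q) (p : ℕ) (hp : p.Prime) (hpq : p ∣ 2 * q) : ¬ p ∣ q ^ 2 + 4 := by
  intro h
  have h2 : p = 2 := by
    rcases (Nat.Prime.dvd_mul hp).1 hpq with h1 | h1
    · exact (Nat.prime_dvd_prime_iff_eq hp Nat.prime_two).1 h1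
    · have h3 : p ∣ 4 := (Nat.dvd_add_right (dvd_pow h1 (by norm_num))).1 h
      have h4 : p ∣ 2 ^ 2 := by norm_num; exact h3
      exact (Nat.prime_dvd_prime_iff_eq hp Nat.prime_two).1 (hp.dvd_of_dvd_pow h4)
  subst h2
  obtain ⟨k, rfl⟩ := hq
  have : (2 * k + 1) ^ 2 + 4 = 2 * (2 * k ^ 2 + 2 * k + 2) + 1 := by ring
  omega

open Classical in
/-- The right order of magnitude. -/
theorem order :
    ∃ δ₀ : ℝ, 0 < δ₀ ∧ ∃ (r : ℕ) (δ c : ℝ), 0 < δ ∧ 0 < c ∧
      ∀ᶠ M : ℕ in atTop, ∀ q : ℕ, Odd q → (q : ℝ) ≤ (M : ℝ) ^ δ →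
        ∀ Y : ℕ, (M : ℝ) ^ (1 - δ₀) ≤ Y → 2 * Y ≤ M →
        c * (Y / Real.log M ^ 2) ≤ number (first q) (second q) δ r {0} M Y ∧
        c * (Y / Real.log M ^ 2) ≤ number (second q) (first q) δ r {0} M Y := by
  have hm4 : ∀ x : ℤ, x < 0 → ¬ IsSquare x := by
    rintro x hx ⟨s, rfl⟩
    exact absurd hx (not_lt.2 (mul_self_nonneg s))
  have hd1 : ∀ q : ℕ, (((X + C (q : ℤ)) ^ 2 + C 4 : ℤ[X])).natDegree ≤ 2 := by
    intro q
    compute_degree
  have hd2 : ∀ q : ℕ, (((X - C (q : ℤ)) ^ 2 + C 1 : ℤ[X])).natDegree ≤ 2 := by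
    intro q
    compute_degree
  obtain ⟨δ₁, hδ₁, r1, η1, k1, hη1, -, hk1, h1⟩ := gen0 1 0 4 (by norm_num) (hm4 _ (by norm_num))
    (fun q => (X + C (q : ℤ)) ^ 2 + C 4) hd1 first second (fun q n => by unfold first; ring)
    (fun q n => by
      unfold second
      simp only [eval_add, eval_pow, eval_X, eval_C]
      push_cast
      ring) (fun q n => by unfold second; omega) (fun q n => by
      unfold second
      apply le_of_eq
      ring) (fun q hq p hp => by
      obtain ⟨n, hn⟩ := not_fixed q hq p hp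
      refine ⟨((2 * q * n : ℕ) : ℤ), fun h => hn ?_⟩
      have e : (((2 * q * n : ℕ) : ℤ) ^ 2 + ((1 : ℕ) : ℤ)) *
          (((X + C (q : ℤ)) ^ 2 + C 4 : ℤ[X])).eval ((2 * q * n : ℕ) : ℤ) =
          ((first q n * second q n : ℕ) : ℤ) := by
        unfold first second
        simp only [eval_add, eval_pow, eval_X, eval_C]
        push_cast
        ring
      rw [e] at h
      exact_mod_cast h) (fun q hq p hp hpq h => by
      have e : (((0 * q : ℕ) : ℤ) ^ 2 + ((1 : ℕ) : ℤ)) *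
          (((X + C (q : ℤ)) ^ 2 + C 4 : ℤ[X])).eval ((0 * q : ℕ) : ℤ) = ((q ^ 2 + 4 : ℕ) : ℤ) := by
        simp only [eval_add, eval_pow, eval_X, eval_C]
        push_cast
        ring
      rw [e] at h
      exact cop q hq p hp hpq (by exact_mod_cast h)) one_pos (by norm_num)
    (fun q => (q : ℤ)) (fun q n => by
      simp only [eval_add, eval_pow, eval_X, eval_C]
      push_cast
      ring)
  obtain ⟨δ₂, hδ₂, r2, η2, k2, hη2, -, hk2, h2⟩ := gen0 4 1 1 le_rfl (hm4 _ (by norm_num))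
    (fun q => (X - C (q : ℤ)) ^ 2 + C 1) hd2 second first (fun q n => by unfold second; ring)
    (fun q n => by
      unfold first
      simp only [eval_add, eval_sub, eval_pow, eval_X, eval_C]
      push_cast
      ring) (fun q n => by unfold first; omega) (fun q n => by
      unfold first
      have h1 : 2 * q * n ≤ (2 * n + 1) * q + q := by
        have : (2 * n + 1) * q + q = 2 * q * n + 2 * q := by ring
        omega
      have := Nat.pow_le_pow_left h1 2
      omega) (fun q hq p hp => by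
      obtain ⟨n, hn⟩ := not_fixed q hq p hp
      refine ⟨(((2 * n + 1) * q : ℕ) : ℤ), fun h => hn ?_⟩
      have e : ((((2 * n + 1) * q : ℕ) : ℤ) ^ 2 + ((4 : ℕ) : ℤ)) *
          (((X - C (q : ℤ)) ^ 2 + C 1 : ℤ[X])).eval (((2 * n + 1) * q : ℕ) : ℤ) =
          ((first q n * second q n : ℕ) : ℤ) := by
        unfold first second
        simp only [eval_add, eval_sub, eval_pow, eval_X, eval_C]
        push_cast
        ring
      rw [e] at h
      exact_mod_cast h) (fun q hq p hp hpq h => by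
      have e : (((1 * q : ℕ) : ℤ) ^ 2 + ((4 : ℕ) : ℤ)) *
          (((X - C (q : ℤ)) ^ 2 + C 1 : ℤ[X])).eval ((1 * q : ℕ) : ℤ) = ((q ^ 2 + 4 : ℕ) : ℤ) := by
        simp only [eval_add, eval_sub, eval_pow, eval_X, eval_C]
        push_cast
        ring
      rw [e] at h
      exact cop q hq p hp hpq (by exact_mod_cast h)) (by norm_num) one_pos
    (fun q => -(q : ℤ)) (fun q n => by
      simp only [eval_add, eval_sub, eval_pow, eval_X, eval_C]
      push_cast
      ring)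
  have hmono : ∀ (u v : ℕ → ℕ) (η η' : ℝ) (r r' : ℕ) (H : Finset ℕ) (M Y : ℕ), η' ≤ η → r ≤ r' →
      1 ≤ M → number u v η r H M Y ≤ number u v η' r' H M Y := by
    intro u v η η' r r' H M Y hη hr hM
    unfold number
    apply card_le_card
    intro n hn
    rw [mem_filter] at hn ⊢
    refine ⟨hn.1, fun h hh => ?_⟩
    obtain ⟨a1, a2, a3, a4⟩ := hn.2 h hh
    exact ⟨a1, a2, a3.trans hr, fun p hp hpd =>
      (Real.rpow_le_rpow_of_exponent_le (by exact_mod_cast hM) hη).trans (a4 p hp hpd)⟩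
  refine ⟨min δ₁ δ₂, lt_min hδ₁ hδ₂, max r1 r2, min η1 η2, min k1 k2, lt_min hη1 hη2,
    lt_min hk1 hk2, ?_⟩
  filter_upwards [h1, h2, eventually_ge_atTop 1] with M hM1 hM2 hM q hq hqM Y hY1 hY2
  have hMr : (1 : ℝ) ≤ M := by exact_mod_cast hM
  have p1 : (M : ℝ) ^ (min η1 η2) ≤ (M : ℝ) ^ η1 :=
    Real.rpow_le_rpow_of_exponent_le hMr (min_le_left _ _)
  have p2 : (M : ℝ) ^ (min η1 η2) ≤ (M : ℝ) ^ η2 :=
    Real.rpow_le_rpow_of_exponent_le hMr (min_le_right _ _)
  have q1 := hM1 q hq (hqM.trans p1) Y (le_trans (Real.rpow_le_rpow_of_exponent_le hMr (by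
        have := min_le_left δ₁ δ₂
        linarith)) hY1) hY2
  have q2 := hM2 q hq (hqM.trans p2) Y (le_trans (Real.rpow_le_rpow_of_exponent_le hMr (by
        have := min_le_right δ₁ δ₂
        linarith)) hY1) hY2
  have hYl : (0 : ℝ) ≤ Y / Real.log M ^ 2 := by positivity
  refine ⟨?_, ?_⟩
  · refine (mul_le_mul_of_nonneg_right (min_le_left k1 k2) hYl).trans (q1.trans ?_)
    exact_mod_cast hmono _ _ _ _ _ _ {0} M Y (min_le_left η1 η2) (le_max_left r1 r2) hM
  · refine (mul_le_mul_of_nonneg_right (min_le_right k1 k2) hYl).trans (q2.trans ?_)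
    exact_mod_cast hmono _ _ _ _ _ _ {0} M Y (min_le_right η1 η2) (le_max_right r1 r2) hM

open Classical in
/-- **Almost primes in both families, in bounded clusters, for every odd `q` up to a power.** -/
theorem result :
    -- single arguments: the right order of magnitude
    (∃ δ₀ : ℝ, 0 < δ₀ ∧ ∃ (r : ℕ) (δ c : ℝ), 0 < δ ∧ 0 < c ∧
      ∀ᶠ M : ℕ in atTop, ∀ q : ℕ, Odd q → (q : ℝ) ≤ (M : ℝ) ^ δ →
        ∀ Y : ℕ, (M : ℝ) ^ (1 - δ₀) ≤ Y → 2 * Y ≤ M →
        c * (Y / Real.log M ^ 2) ≤ number (first q) (second q) δ r {0} M Y ∧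
        c * (Y / Real.log M ^ 2) ≤ number (second q) (first q) δ r {0} M Y) ∧
    -- bounded clusters
    ∃ δ₀ : ℝ, 0 < δ₀ ∧ ∃ c : ℝ, 0 < c ∧ ∀ m : ℕ, ∃ (K D r : ℕ) (δ : ℝ), 0 < δ ∧
      (K : ℝ) ≤ Real.exp (Real.exp (c * (m + 1))) ∧
      ∀ᶠ M : ℕ in atTop, ∀ q : ℕ, Odd q → (q : ℝ) ≤ (M : ℝ) ^ δ →
        ∀ S : Finset ℕ, K ≤ S.card → (∀ h ∈ S, (h : ℝ) ≤ (M : ℝ) ^ δ) →
        ∀ Y : ℕ, (M : ℝ) ^ (1 - δ₀) ≤ Y → 2 * Y ≤ M →
        (∃ H ⊆ S, H.card = m ∧ Y / Real.log M ^ D ≤ number (first q) (second q) δ r H M Y) ∧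
        (∃ H ⊆ S, H.card = m ∧ Y / Real.log M ^ D ≤ number (second q) (first q) δ r H M Y) := by
  refine ⟨order, ?_⟩
  have hm4 : ∀ x : ℤ, x < 0 → ¬ IsSquare x := by
    rintro x hx ⟨s, rfl⟩
    exact absurd hx (not_lt.2 (mul_self_nonneg s))
  have hd1 : ∀ q : ℕ, (((X + C (q : ℤ)) ^ 2 + C 4 : ℤ[X])).natDegree ≤ 2 := by
    intro q
    compute_degree
  have hd2 : ∀ q : ℕ, (((X - C (q : ℤ)) ^ 2 + C 1 : ℤ[X])).natDegree ≤ 2 := by
    intro q
    compute_degree
  obtain ⟨δ₁, hδ₁, C1, hC1, h1⟩ := gen 1 0 (by norm_num) (hm4 _ (by norm_num))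
    (fun q => (X + C (q : ℤ)) ^ 2 + C 4) hd1 first second (fun q n => by unfold first; ring)
    (fun q n => by
      unfold second
      simp only [eval_add, eval_pow, eval_X, eval_C]
      push_cast
      ring) (fun q n => by unfold second; omega) (fun q n => by
      unfold second
      apply le_of_eq
      ring) (fun q hq p hp => by
      obtain ⟨n, hn⟩ := not_fixed q hq p hp
      refine ⟨((2 * q * n : ℕ) : ℤ), fun h => hn ?_⟩
      have e : (((2 * q * n : ℕ) : ℤ) ^ 2 + ((1 : ℕ) : ℤ)) *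
          (((X + C (q : ℤ)) ^ 2 + C 4 : ℤ[X])).eval ((2 * q * n : ℕ) : ℤ) =
          ((first q n * second q n : ℕ) : ℤ) := by
        unfold first second
        simp only [eval_add, eval_pow, eval_X, eval_C]
        push_cast
        ring
      rw [e] at h
      exact_mod_cast h) (fun q hq p hp hpq h => by
      have e : (((0 * q : ℕ) : ℤ) ^ 2 + ((1 : ℕ) : ℤ)) *
          (((X + C (q : ℤ)) ^ 2 + C 4 : ℤ[X])).eval ((0 * q : ℕ) : ℤ) = ((q ^ 2 + 4 : ℕ) : ℤ) := by
        simp only [eval_add, eval_pow, eval_X, eval_C]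
        push_cast
        ring
      rw [e] at h
      exact cop q hq p hp hpq (by exact_mod_cast h))
  obtain ⟨δ₂, hδ₂, C2, hC2, h2⟩ := gen 4 1 le_rfl (hm4 _ (by norm_num))
    (fun q => (X - C (q : ℤ)) ^ 2 + C 1) hd2 second first (fun q n => by unfold second; ring)
    (fun q n => by
      unfold first
      simp only [eval_add, eval_sub, eval_pow, eval_X, eval_C]
      push_cast
      ring) (fun q n => by unfold first; omega) (fun q n => by
      unfold first
      have h1 : 2 * q * n ≤ (2 * n + 1) * q + q := by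
        have : (2 * n + 1) * q + q = 2 * q * n + 2 * q := by ring
        omega
      have := Nat.pow_le_pow_left h1 2
      omega) (fun q hq p hp => by
      obtain ⟨n, hn⟩ := not_fixed q hq p hp
      refine ⟨(((2 * n + 1) * q : ℕ) : ℤ), fun h => hn ?_⟩
      have e : ((((2 * n + 1) * q : ℕ) : ℤ) ^ 2 + ((4 : ℕ) : ℤ)) *
          (((X - C (q : ℤ)) ^ 2 + C 1 : ℤ[X])).eval (((2 * n + 1) * q : ℕ) : ℤ) =
          ((first q n * second q n : ℕ) : ℤ) := by
        unfold first second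
        simp only [eval_add, eval_sub, eval_pow, eval_X, eval_C]
        push_cast
        ring
      rw [e] at h
      exact_mod_cast h) (fun q hq p hp hpq h => by
      have e : (((1 * q : ℕ) : ℤ) ^ 2 + ((4 : ℕ) : ℤ)) *
          (((X - C (q : ℤ)) ^ 2 + C 1 : ℤ[X])).eval ((1 * q : ℕ) : ℤ) = ((q ^ 2 + 4 : ℕ) : ℤ) := by
        simp only [eval_add, eval_sub, eval_pow, eval_X, eval_C]
        push_cast
        ring
      rw [e] at h
      exact cop q hq p hp hpq (by exact_mod_cast h))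
  refine ⟨min δ₁ δ₂, lt_min hδ₁ hδ₂, max C1 C2, lt_max_of_lt_left hC1, fun m => ?_⟩
  obtain ⟨K1, D1, r1, η1, hη1, -, hK1, h1⟩ := h1 m
  obtain ⟨K2, D2, r2, η2, hη2, -, hK2, h2⟩ := h2 m
  have hm0 : (0 : ℝ) ≤ (m : ℝ) + 1 := by positivity
  have hmono : ∀ (u v : ℕ → ℕ) (η η' : ℝ) (r r' : ℕ) (H : Finset ℕ) (M Y : ℕ), η' ≤ η → r ≤ r' →
      1 ≤ M → number u v η r H M Y ≤ number u v η' r' H M Y := by
    intro u v η η' r r' H M Y hη hr hM
    unfold number
    apply card_le_card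
    intro n hn
    rw [mem_filter] at hn ⊢
    refine ⟨hn.1, fun h hh => ?_⟩
    obtain ⟨a1, a2, a3, a4⟩ := hn.2 h hh
    exact ⟨a1, a2, a3.trans hr, fun p hp hpd =>
      (Real.rpow_le_rpow_of_exponent_le (by exact_mod_cast hM) hη).trans (a4 p hp hpd)⟩
  have hlog : ∀ᶠ M : ℕ in atTop, (1 : ℝ) ≤ Real.log (M : ℝ) :=
    (Real.tendsto_log_atTop.comp tendsto_natCast_atTop_atTop).eventually_ge_atTop _
  refine ⟨max K1 K2, max D1 D2, max r1 r2, min η1 η2, lt_min hη1 hη2, ?_, ?_⟩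
  · rw [Nat.cast_max]
    apply max_le
    · refine hK1.trans (Real.exp_le_exp.2 (Real.exp_le_exp.2 ?_))
      exact mul_le_mul_of_nonneg_right (le_max_left _ _) hm0
    · refine hK2.trans (Real.exp_le_exp.2 (Real.exp_le_exp.2 ?_))
      exact mul_le_mul_of_nonneg_right (le_max_right _ _) hm0
  · filter_upwards [h1, h2, hlog, eventually_ge_atTop 1] with M hM1 hM2 hl hM q hq hqM S hS hSb Y hY1 hY2
    have hMr : (1 : ℝ) ≤ M := by exact_mod_cast hM
    have p1 : (M : ℝ) ^ (min η1 η2) ≤ (M : ℝ) ^ η1 :=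
      Real.rpow_le_rpow_of_exponent_le hMr (min_le_left _ _)
    have p2 : (M : ℝ) ^ (min η1 η2) ≤ (M : ℝ) ^ η2 :=
      Real.rpow_le_rpow_of_exponent_le hMr (min_le_right _ _)
    obtain ⟨H, hH, hHm, hn⟩ := hM1 q hq (hqM.trans p1) S ((le_max_left _ _).trans hS)
      (fun h hh => (hSb h hh).trans p1) Y (le_trans (Real.rpow_le_rpow_of_exponent_le hMr (by
        have := min_le_left δ₁ δ₂
        linarith)) hY1) hY2
    obtain ⟨H', hH', hHm', hn'⟩ := hM2 q hq (hqM.trans p2) S ((le_max_right _ _).trans hS)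
      (fun h hh => (hSb h hh).trans p2) Y (le_trans (Real.rpow_le_rpow_of_exponent_le hMr (by
        have := min_le_right δ₁ δ₂
        linarith)) hY1) hY2
    refine ⟨⟨H, hH, hHm, ?_⟩, ⟨H', hH', hHm', ?_⟩⟩
    · calc (Y : ℝ) / Real.log M ^ max D1 D2 ≤ Y / Real.log M ^ D1 := by
            apply div_le_div_of_nonneg_left (Nat.cast_nonneg _) (by positivity)
            exact pow_le_pow_right₀ hl (le_max_left _ _)
        _ ≤ _ := hn
        _ ≤ _ := by
            exact_mod_cast hmono _ _ _ _ _ _ H M Y (min_le_left η1 η2) (le_max_left r1 r2) hM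
    · calc (Y : ℝ) / Real.log M ^ max D1 D2 ≤ Y / Real.log M ^ D2 := by
            apply div_le_div_of_nonneg_left (Nat.cast_nonneg _) (by positivity)
            exact pow_le_pow_right₀ hl (le_max_right _ _)
        _ ≤ _ := hn'
        _ ≤ _ := by
            exact_mod_cast hmono _ _ _ _ _ _ H' M Y (min_le_right η1 η2) (le_max_right r1 r2) hM

end Pool.Agent.Results.MP_4b1228_nt.AlmostPrimesForEveryQ
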