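import Pool.Agent.H540.TE.Uni

/-!
# Almost primes in the Ankeny–Chowla–Hasse family `(2 q n) ^ 2 + 1`, uniformly in `q`, along differences

A theorem of the type of Furstenberg and Sárközy, with a power saving, for the family `(2 q n) ^ 2 + 1` of Ankeny,
Chowla and Hasse, uniformly in `q`. Let `δ > 0`. There is `c > 0` such that for all large `N` and all
`q ≤ N ^ (3 / 10)` in every set `A` of integers in `[1, N]` with at least `N ^ (1 - c)` elements there are at least
`N ^ (2 - δ)` pairs of elements `b < a` such that with `n = a - b` the number `(2 q n) ^ 2 + 1` has at most three prime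
factors, counted with multiplicity, all at least `N ^ (6 / 25)`. More generally this holds for `q ≤ N ^ E` and
numbers with at most `r` prime factors if `2 (1 + E) + 1 / 100 ≤ (24 / 25) ^ 2 (r - 1 / 8)`, and any further
numbers `q_1, ..., q_J ≤ N ^ D` may be given: for the same `n` all the numbers `(2 q_j n) ^ 2 + 1` have at most `R` prime
factors, all at least `N ^ c`, where `R` depends only on `J`, `D`, `E`, `r` and `δ`.

For `A` the set of all integers up to `N` this is a result of the type of Richert's theorem. For the differences `p - 1`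
and `p + 1`, `p` prime, such a power saving is a theorem of B. Green.

Method: the small primes (up to a small power of `N`) are sieved by a combination of additive characters with
majorising properties: with `t_p (m) = (K + 1) 1_{p | m} - x_p (m)`, where `x_p` is the indicator function of the
excluded classes and their negatives, `L = ∑_{d ≤ D} (1 - log d / log D) ∏_{p | d} t_p` and its analogues `L_p`
give `f = L ^ 2 - ∑_p x_p L_p ^ 2 ≤ 0` outside of the sifted set, and the Fourier coefficients of `f`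
which are not small are nonnegative, so that their contribution is bounded from below by the main term, however sparse
`A` is. The larger primes are treated by the linear sieve with the weights of Richert, with the level `N ^ (24 / 25)`:
the mean free parts of their indicator functions, multiplied by `L ^ 2` or `L_p ^ 2`, are dominated
by functions with nonnegative coefficients, whose pair sums are bounded by the large sieve; the loss by the
sparsity of `A` is compensated by the gain from the size of these primes.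
-/

set_option autoImplicit false

namespace Pool.Agent.Results.MP_4b1228_nt.DifferencesOfSparseSets

open Finset Filter Polynomial

/-- `n` is positive and has at most `r` prime factors, counted with multiplicity, all at least `y`. -/
def AlmostPrime (r : ℕ) (y : ℝ) (n : ℕ) : Prop :=
  0 < n ∧ n.primeFactorsList.length ≤ r ∧ ∀ p : ℕ, p.Prime → p ∣ n → y ≤ p

open Classical in
/-- The number of pairs of elements `b < a` of `A` for which with `n = a - b` the number `(2 q₀ n) ^ 2 + 1` has at most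
`r` prime factors, all at least `z`, and all the numbers `(2 q_j n) ^ 2 + 1` have at most `R` prime factors, all at
least `y`, counted with multiplicity. -/
noncomputable def pairCount (r R : ℕ) (y z : ℝ) (q₀ : ℕ) {J : ℕ} (q : Fin J → ℕ) (A : Finset ℕ) : ℕ :=
  ((A ×ˢ A).filter (fun w : ℕ × ℕ => w.2 < w.1 ∧ AlmostPrime r z ((2 * q₀ * (w.1 - w.2)) ^ 2 + 1) ∧
    ∀ j, AlmostPrime R y ((2 * q j * (w.1 - w.2)) ^ 2 + 1))).card

theorem irr : Irreducible (X ^ 2 + 1 : ℤ[X]) := by
  have h := Pool.Agent.Y882.SI.QF_irred 1 (by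
    rintro ⟨x, hx⟩
    nlinarith [mul_self_nonneg x])
  have h2 : Pool.Agent.Y882.SI.QF 1 = (X ^ 2 + 1 : ℤ[X]) := by
    unfold Pool.Agent.Y882.SI.QF
    simp
  rw [← h2]
  exact h

theorem deg : (X ^ 2 + 1 : ℤ[X]).natDegree = 2 := by compute_degree!

/-- the polynomials of the further conditions -/
noncomputable def GG {J : ℕ} (q : Fin J → ℕ) (i : ℕ) : ℤ[X] :=
  if h : i < J then C ((2 * (q ⟨i, h⟩ : ℤ)) ^ 2) * X ^ 2 + 1 else 1

theorem GG_eval {J : ℕ} (q : Fin J → ℕ) (i : ℕ) (h : i < J) (x : ℤ) :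
    (GG q i).eval x = (2 * (q ⟨i, h⟩ : ℤ) * x) ^ 2 + 1 := by
  unfold GG
  rw [dif_pos h]
  simp only [eval_add, eval_mul, eval_pow, eval_X, eval_C, eval_one]
  ring

theorem GG_coeff {J : ℕ} (q : Fin J → ℕ) (i : ℕ) (h : i < J) (M : ℝ) (hM1 : 1 ≤ M)
    (hM : (2 * (q ⟨i, h⟩ : ℝ)) ^ 2 ≤ M) (j : ℕ) : |((GG q i).coeff j : ℝ)| ≤ M := by
  unfold GG
  rw [dif_pos h, coeff_add, coeff_C_mul, coeff_X_pow, coeff_one]
  by_cases h2 : j = 2
  · subst h2
    simp only [if_true, mul_one]
    norm_num
    exact hM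
  · rw [if_neg h2, mul_zero, zero_add]
    by_cases h0 : j = 0
    · rw [if_pos h0]
      simpa using hM1
    · rw [if_neg h0]
      simp
      linarith

theorem GG_deg {J : ℕ} (q : Fin J → ℕ) (i : ℕ) : (GG q i).natDegree ≤ 2 := by
  unfold GG
  split_ifs
  · compute_degree
  · simp

/-- **Almost primes in the family `(2 q n) ^ 2 + 1` at the differences of a sparse set, uniformly in `q`.** Let
`D, E ≥ 0`, `δ > 0`, and let `J`, `r` be natural numbers with `2 (1 + E) + 1 / 100 ≤ (24 / 25) ^ 2 (r - 1 / 8)` (for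
instance `E = 3 / 10`, `r = 3`). There are `c > 0` and `R` such that for all sufficiently large `N`, all
`1 ≤ q₀ ≤ N ^ E` and `q_1, ..., q_J ≤ N ^ D`, every set `A` of integers in `[1, N]` with at least `N ^ (1 - c)`
elements has at least `N ^ (2 - δ)` pairs of elements `b < a` for which with `n = a - b` the number
`(2 q₀ n) ^ 2 + 1` has at most `r` prime factors, all at least `N ^ (6 / 25)`, and the numbers
`(2 q_j n) ^ 2 + 1` have at most `R` prime factors, all at least `N ^ c` (counted with multiplicity). -/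
theorem result (J r : ℕ) (D E δ : ℝ) (hD : 0 ≤ D) (hE : 0 ≤ E) (hδ : 0 < δ)
    (hr : 2 * (1 + E) + 1 / 100 ≤ (24 / 25) ^ 2 * ((r : ℝ) - 1 / 8)) :
    ∃ (c : ℝ) (R : ℕ), 0 < c ∧ ∀ᶠ N : ℕ in atTop, ∀ (q₀ : ℕ) (q : Fin J → ℕ) (A : Finset ℕ),
      1 ≤ q₀ → (q₀ : ℝ) ≤ (N : ℝ) ^ E → (∀ j, (q j : ℝ) ≤ (N : ℝ) ^ D) →
      A ⊆ Icc 1 N → (N : ℝ) ^ (1 - c) ≤ (A.card : ℝ) →
      (N : ℝ) ^ (2 - δ) ≤ (pairCount r R ((N : ℝ) ^ c) ((N : ℝ) ^ (6 / 25 : ℝ)) q₀ q A : ℝ) := by
  classical
  obtain ⟨c, R, N0, hc, hcδ, H⟩ := Pool.Agent.H540.PS.polyU (X ^ 2 + 1) irr (by rw [deg]; norm_num) 2 J r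
    (1 + E + 1 / 250) (2 * D + 1) 1 δ (by linarith) (by linarith) one_pos hδ (by
      rw [deg, ← le_sub_iff_add_le', div_le_iff₀ (by norm_num)]
      push_cast
      linarith)
  refine ⟨c, R, hc, ?_⟩
  filter_upwards [eventually_ge_atTop N0, eventually_ge_atTop 4,
    (Pool.Agent.H540.PS.tpow (show (0 : ℝ) < 1 / 250 by norm_num)).eventually_ge_atTop 2] with
    N k1 k2 k3 q₀ q A hq₀ hq₀N hqN hA hAc
  have hN3 : (4 : ℝ) ≤ N := by exact_mod_cast k2
  have hNp : (0 : ℝ) < N := by linarith
  have hN1 : (1 : ℝ) ≤ N := by linarith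
  have hinj : Function.Injective (fun a : ℕ => (a : ℤ)) := Nat.cast_injective
  have hone : ∀ p : ℕ, p.Prime → ¬ (p : ℤ) ∣ 1 := by
    intro p hp h
    have h2 := Int.natCast_dvd.1 h
    exact hp.one_lt.ne' (Nat.dvd_one.1 h2)
  have hmain := H N k1 0 (2 * q₀) (GG q) (A.image (fun a : ℕ => (a : ℤ))) (by positivity) (by
      rw [Int.cast_zero, abs_zero, zero_add]
      push_cast
      rw [abs_of_nonneg (by positivity)]
      calc 2 * (q₀ : ℝ) * N ≤ ((N : ℝ) ^ (1 / 250 : ℝ) * (N : ℝ) ^ E) * N := by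
            apply mul_le_mul_of_nonneg_right _ hNp.le
            exact mul_le_mul k3 hq₀N (by positivity) (by positivity)
        _ = (N : ℝ) ^ (1 + E + 1 / 250) := by
            rw [show (1 + E + 1 / 250 : ℝ) = (1 / 250 + E) + 1 by ring, Real.rpow_add hNp, Real.rpow_add hNp,
              Real.rpow_one]) (by
      intro p hp h1
      exfalso
      apply hone p hp
      simpa using h1) (by
      intro i hi
      refine ⟨GG_deg q i, ?_, ?_⟩
      · intro j
        refine GG_coeff q i hi _ (Real.one_le_rpow hN1 (by linarith)) ?_ j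
        have h1 := hqN ⟨i, hi⟩
        calc (2 * (q ⟨i, hi⟩ : ℝ)) ^ 2 ≤ (2 * (N : ℝ) ^ D) ^ 2 := by
              apply pow_le_pow_left₀ (by positivity)
              linarith
          _ = 4 * ((N : ℝ) ^ D * (N : ℝ) ^ D) := by ring
          _ ≤ N * ((N : ℝ) ^ D * (N : ℝ) ^ D) := mul_le_mul_of_nonneg_right hN3 (by positivity)
          _ = (N : ℝ) ^ (2 * D + 1) := by
              rw [show 2 * D + 1 = 1 + (D + D) by ring, Real.rpow_add hNp, Real.rpow_add hNp, Real.rpow_one]
      · intro p hp h1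
        exfalso
        apply hone p hp
        rw [GG_eval q i hi] at h1
        simpa using h1) (by
      intro a ha
      rw [mem_image] at ha
      obtain ⟨a', ha', rfl⟩ := ha
      have := mem_Icc.1 (hA ha')
      omega) (by
      rw [card_image_of_injective _ hinj]
      exact hAc)
  refine hmain.trans (Nat.cast_le.2 ?_)
  unfold pairCount
  apply card_le_card_of_injOn (fun z : ℤ × ℤ => (z.1.toNat, z.2.toNat))
  · rintro ⟨x, y⟩ hz
    rw [mem_coe, mem_filter, mem_product, mem_image, mem_image] at hz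
    obtain ⟨⟨⟨a, ha, hxa⟩, ⟨b, hb, hyb⟩⟩, hlt, hP, hG⟩ := hz
    simp only at hxa hyb hlt hP hG
    subst hxa
    subst hyb
    have hlt' : b < a := by exact_mod_cast hlt
    rw [mem_coe, mem_filter, mem_product]
    simp only [Int.toNat_natCast]
    rw [← Nat.cast_sub hlt'.le] at hP hG
    refine ⟨⟨ha, hb⟩, hlt', ?_, ?_⟩
    · have h4 : ((X ^ 2 + 1 : ℤ[X]).eval (2 * (q₀ : ℤ) * ((a - b : ℕ) : ℤ) + 0)).natAbs =
          (2 * q₀ * (a - b)) ^ 2 + 1 := by
        simp only [eval_add, eval_pow, eval_X, eval_one, add_zero]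
        have : ((2 * (q₀ : ℤ) * ((a - b : ℕ) : ℤ)) ^ 2 + 1) = (((2 * q₀ * (a - b)) ^ 2 + 1 : ℕ) : ℤ) := by
          push_cast
          rfl
        rw [this, Int.natAbs_natCast]
      rw [h4] at hP
      exact hP
    · intro j
      have h5 := hG j j.2
      rw [GG_eval q j j.2] at h5
      have h4 : ((2 * (q ⟨j, j.2⟩ : ℤ) * ((a - b : ℕ) : ℤ)) ^ 2 + 1).natAbs = (2 * q j * (a - b)) ^ 2 + 1 := by
        have : ((2 * (q ⟨j, j.2⟩ : ℤ) * ((a - b : ℕ) : ℤ)) ^ 2 + 1) = (((2 * q j * (a - b)) ^ 2 + 1 : ℕ) : ℤ) := by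
          push_cast
          rfl
        rw [this, Int.natAbs_natCast]
      rw [h4] at h5
      exact h5
  · rintro ⟨x, y⟩ hz ⟨x', y'⟩ hz' heq
    rw [mem_coe, mem_filter, mem_product, mem_image, mem_image] at hz hz'
    obtain ⟨⟨⟨a, ha, hxa⟩, ⟨b, hb, hyb⟩⟩, _⟩ := hz
    obtain ⟨⟨⟨a', ha', hxa'⟩, ⟨b', hb', hyb'⟩⟩, _⟩ := hz'
    simp only [Prod.mk.injEq] at heq hxa hyb hxa' hyb' ⊢
    omega

end Pool.Agent.Results.MP_4b1228_nt.DifferencesOfSparseSets
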