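import Mathlib
import Pool.Agent.H536.OR.RQ

/-!
# The numbers `(2 q n) ^ 2 + 1` and `((2 n + 1) q) ^ 2 + 4` with at most five prime factors, uniformly in `n` and in progressions

For all large `X`, every `n ≤ X ^ δ`, every modulus `m ≤ X ^ δ` (also a multiple of an exceptional modulus of Siegel's type) and
every class `a` prime to `m` with `(2 a n) ^ 2 + 1` prime to `m` there are at least `X ^ 0.97` primes `q ≤ X`, `q ≡ a` modulo `m`,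
such that `(2 q n) ^ 2 + 1` has at most five prime factors, all of them larger than `X ^ 0.11`; the same for
`((2 n + 1) q) ^ 2 + 4`. The values `g_i(q)` of any further polynomials can be required to have a bounded number of prime factors.
-/

open Polynomial

namespace Pool.Agent.Results.MP_4b1228_nt.FivePrimeFactorsUniform

/-- `m` has at least one and at most five prime factors (with multiplicity), all of them larger than `X ^ (11 / 100)` -/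
def RoughP5 (X m : ℕ) : Prop :=
  1 < m ∧ ArithmeticFunction.cardFactors m ≤ 5 ∧ ∀ l : ℕ, l.Prime → l ∣ m → (X : ℝ) ^ (11 / 100 : ℝ) < l

theorem val_eq (m p c : ℕ) : (((m : ℤ) * p) ^ 2 + c).natAbs = (m * p) ^ 2 + c := by
  zify
  rw [abs_of_nonneg]
  positivity

theorem key (c : ℕ) (hc : 0 < c) : ∀ k D K : ℕ, ∃ (δ : ℝ) (R X0 : ℕ), 0 < δ ∧ ∀ X : ℕ, X0 ≤ X → ∀ g : Fin k → ℤ[X],
      (∀ i, (g i).natDegree ≤ D) → (∀ i j, |(g i).coeff j| ≤ X ^ K) → ∀ m u a : ℕ, 1 ≤ m → (m : ℝ) ≤ (X : ℝ) ^ δ →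
      1 ≤ u → (u : ℝ) ≤ (X : ℝ) ^ δ →
      (∀ l : ℕ, l.Prime → ∃ x : ℤ, (l ∣ m → (l : ℤ) ∣ x - a) ∧ ¬ (l : ℤ) ∣ x ∧ ¬ (l : ℤ) ∣ (u * x) ^ 2 + c ∧
        ∀ i, ¬ (l : ℤ) ∣ (g i).eval x) →
      ∃ S : Finset ℕ, (X : ℝ) ^ (97 / 100 : ℝ) ≤ S.card ∧ ∀ q ∈ S, q.Prime ∧ q ≤ X ∧ (X : ℝ) ^ (97 / 100 : ℝ) ≤ q ∧
        q ≡ a [MOD m] ∧ RoughP5 X ((u * q) ^ 2 + c) ∧
        ∀ i, (g i).eval (q : ℤ) ≠ 0 ∧ ArithmeticFunction.cardFactors ((g i).eval (q : ℤ)).natAbs ≤ R := by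
  intro k D K
  obtain ⟨hirr, hdeg⟩ := Pool.Agent.H536.OR.irr1 (c : ℤ) (by exact_mod_cast hc)
  obtain ⟨δ, R, X0, hδ, h⟩ := Pool.Agent.H536.OR.PTall _ hirr hdeg.ge k D K
  refine ⟨δ, R, X0, hδ, ?_⟩
  intro X hX g hg1 hg2 m u a hm hmX hu huX hloc
  have hev : ∀ n : ℤ, (Polynomial.X ^ 2 + C (c : ℤ) : ℤ[X]).eval ((u : ℤ) * n) = ((u : ℤ) * n) ^ 2 + c := by
    intro n
    simp
  obtain ⟨S, hS, h1⟩ := h X hX g hg1 hg2 m a (u : ℤ) hm hmX (by omega) (by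
    rw [Int.cast_natCast, Nat.abs_cast]
    exact huX) (fun l hl => by
    obtain ⟨n, n1, n2, n3, n4⟩ := hloc l hl
    exact ⟨n, n1, n2, by rw [hev]; exact n3, n4⟩)
  refine ⟨S, hS, fun p hp => ?_⟩
  obtain ⟨g1, g2, g3, g4, g5, g6, g7, g8⟩ := h1 p hp
  rw [hev, val_eq] at g5 g6 g7
  rw [hdeg] at g6
  exact ⟨g1, g2, g4, g3, ⟨g5, by omega, g7⟩, g8⟩

theorem loc (u a m c : ℕ) (hcop : (a * ((u * a) ^ 2 + c)).Coprime m) (h : ∀ l : ℕ, l.Prime → ¬ l ∣ m → ∃ x : ℕ, ¬ l ∣ x ∧ ¬ l ∣ (u * x) ^ 2 + c) :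
    ∀ l : ℕ, l.Prime → ∃ x : ℤ, (l ∣ m → (l : ℤ) ∣ x - a) ∧ ¬ (l : ℤ) ∣ x ∧ ¬ (l : ℤ) ∣ (u * x) ^ 2 + c := by
  intro l hl
  by_cases hlq : l ∣ m
  · refine ⟨a, fun _ => by simp, ?_, ?_⟩
    · intro hd
      have h2 : l ∣ a := by exact_mod_cast hd
      have h3 := Nat.dvd_gcd (h2.mul_right ((u * a) ^ 2 + c)) hlq
      rw [hcop] at h3
      exact hl.one_lt.ne' (Nat.dvd_one.1 h3)
    · intro hd
      have h2 : l ∣ (u * a) ^ 2 + c := by exact_mod_cast hd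
      have h3 := Nat.dvd_gcd (h2.mul_left a) hlq
      rw [hcop] at h3
      exact hl.one_lt.ne' (Nat.dvd_one.1 h3)
  · obtain ⟨x, h1, h2⟩ := h l hl hlq
    exact ⟨x, fun h => absurd h hlq, by exact_mod_cast h1, by exact_mod_cast h2⟩

/-- one of the arguments `1`, `2` is good -/
theorem loc2 {l u c : ℕ} (hl : l.Prime) (hodd : ¬ 2 ∣ u ^ 2 + c) (h3 : ¬ 3 ∣ u ^ 2 + c) (hc : ∀ l : ℕ, l.Prime → l ∣ 3 * c → l = 2 ∨ l = 3) :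
    ∃ x : ℕ, ¬ l ∣ x ∧ ¬ l ∣ (u * x) ^ 2 + c := by
  by_cases h1 : l ∣ u ^ 2 + c
  · have hl2 : l ≠ 2 := fun h => hodd (h ▸ h1)
    have hl3 : l ≠ 3 := fun h => h3 (h ▸ h1)
    refine ⟨2, fun h => hl2 ((Nat.prime_dvd_prime_iff_eq hl Nat.prime_two).1 h), fun h => ?_⟩
    have h4 : l ∣ 4 * (u ^ 2 + c) := h1.mul_left 4
    have h5 : 4 * (u ^ 2 + c) = ((u * 2) ^ 2 + c) + 3 * c := by ring
    rw [h5] at h4
    rcases hc l hl ((Nat.dvd_add_right h).1 h4) with h6 | h6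
    · exact hl2 h6
    · exact hl3 h6
  · refine ⟨1, fun h => hl.one_lt.ne' (Nat.dvd_one.1 h), ?_⟩
    rwa [mul_one]

theorem loc3 (u : ℕ) : ¬ 3 ∣ u ^ 2 + 1 ∧ ¬ 3 ∣ u ^ 2 + 4 := by
  have h : u % 3 = 0 ∨ u % 3 = 1 ∨ u % 3 = 2 := by omega
  constructor <;> (intro hd; have h2 := Nat.mod_eq_zero_of_dvd hd; rw [Nat.add_mod, Nat.pow_mod] at h2; rcases h with h | h | h <;> rw [h] at h2 <;> norm_num at h2)

theorem result :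
    (∃ (δ : ℝ) (X0 : ℕ), 0 < δ ∧ ∀ X : ℕ, X0 ≤ X → ∀ m n a : ℕ, 1 ≤ m → (m : ℝ) ≤ (X : ℝ) ^ δ → (n : ℝ) ≤ (X : ℝ) ^ δ →
      (1 ≤ n → (a * ((2 * a * n) ^ 2 + 1)).Coprime m →
        ∃ S : Finset ℕ, (X : ℝ) ^ (97 / 100 : ℝ) ≤ S.card ∧ ∀ q ∈ S, q.Prime ∧ q ≤ X ∧ (X : ℝ) ^ (97 / 100 : ℝ) ≤ q ∧
          q ≡ a [MOD m] ∧ RoughP5 X ((2 * q * n) ^ 2 + 1)) ∧
      ((a * (((2 * n + 1) * a) ^ 2 + 4)).Coprime m →
        ∃ S : Finset ℕ, (X : ℝ) ^ (97 / 100 : ℝ) ≤ S.card ∧ ∀ q ∈ S, q.Prime ∧ q ≤ X ∧ (X : ℝ) ^ (97 / 100 : ℝ) ≤ q ∧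
          q ≡ a [MOD m] ∧ RoughP5 X (((2 * n + 1) * q) ^ 2 + 4))) ∧
    (∀ k D K c : ℕ, 0 < c → ∃ (δ : ℝ) (R X0 : ℕ), 0 < δ ∧ ∀ X : ℕ, X0 ≤ X → ∀ g : Fin k → ℤ[X],
      (∀ i, (g i).natDegree ≤ D) → (∀ i j, |(g i).coeff j| ≤ X ^ K) → ∀ m u a : ℕ, 1 ≤ m → (m : ℝ) ≤ (X : ℝ) ^ δ →
      1 ≤ u → (u : ℝ) ≤ (X : ℝ) ^ δ →
      (∀ l : ℕ, l.Prime → ∃ x : ℤ, (l ∣ m → (l : ℤ) ∣ x - a) ∧ ¬ (l : ℤ) ∣ x ∧ ¬ (l : ℤ) ∣ (u * x) ^ 2 + c ∧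
        ∀ i, ¬ (l : ℤ) ∣ (g i).eval x) →
      ∃ S : Finset ℕ, (X : ℝ) ^ (97 / 100 : ℝ) ≤ S.card ∧ ∀ q ∈ S, q.Prime ∧ q ≤ X ∧ (X : ℝ) ^ (97 / 100 : ℝ) ≤ q ∧
        q ≡ a [MOD m] ∧ RoughP5 X ((u * q) ^ 2 + c) ∧
        ∀ i, (g i).eval (q : ℤ) ≠ 0 ∧ ArithmeticFunction.cardFactors ((g i).eval (q : ℤ)).natAbs ≤ R) := by
  refine ⟨?_, fun k D K c hc => key c hc k D K⟩
  obtain ⟨δ1, R1, X1, hδ1, h1⟩ := key 1 (by norm_num) 0 0 0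
  obtain ⟨δ2, R2, X2, hδ2, h2⟩ := key 4 (by norm_num) 0 0 0
  obtain ⟨δ, hδdef⟩ : ∃ δ : ℝ, δ = min δ1 δ2 / 2 := ⟨_, rfl⟩
  have hδ : 0 < δ := by rw [hδdef]; positivity
  have hδ1' : 2 * δ ≤ δ1 := by
    have := min_le_left δ1 δ2
    linarith
  have hδ2' : 2 * δ ≤ δ2 := by
    have := min_le_right δ1 δ2
    linarith
  obtain ⟨X3, hX3⟩ := Filter.eventually_atTop.1 (((tendsto_rpow_atTop hδ).comp tendsto_natCast_atTop_atTop).eventually_ge_atTop (3 : ℝ))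
  refine ⟨δ, max (max X1 X2) (max X3 1), hδ, ?_⟩
  intro X hX m n a hm hmX hnX
  have hXa : X1 ≤ X := ((le_max_left _ _).trans (le_max_left _ _)).trans hX
  have hXb : X2 ≤ X := ((le_max_right _ _).trans (le_max_left _ _)).trans hX
  have hXc : X3 ≤ X := ((le_max_left _ _).trans (le_max_right _ _)).trans hX
  have hXd : 1 ≤ X := ((le_max_right _ _).trans (le_max_right _ _)).trans hX
  have hXr : (1 : ℝ) ≤ X := by exact_mod_cast hXd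
  have h3 : (3 : ℝ) ≤ (X : ℝ) ^ δ := hX3 X hXc
  have hpow : ∀ δ' : ℝ, 2 * δ ≤ δ' → 3 * (X : ℝ) ^ δ ≤ (X : ℝ) ^ δ' := by
    intro δ' h
    calc 3 * (X : ℝ) ^ δ ≤ (X : ℝ) ^ δ * (X : ℝ) ^ δ := by gcongr
      _ = (X : ℝ) ^ (2 * δ) := by rw [← Real.rpow_add (by linarith)]; ring_nf
      _ ≤ _ := Real.rpow_le_rpow_of_exponent_le hXr h
  have hm1 : (m : ℝ) ≤ (X : ℝ) ^ δ1 := hmX.trans (by have := hpow δ1 hδ1'; linarith)
  have hm2 : (m : ℝ) ≤ (X : ℝ) ^ δ2 := hmX.trans (by have := hpow δ2 hδ2'; linarith)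
  constructor
  · intro hn hcop
    have e : ∀ q : ℕ, (2 * n * q) ^ 2 + 1 = (2 * q * n) ^ 2 + 1 := fun q => by ring
    obtain ⟨S, hS, h4⟩ := h1 X hXa (fun i => i.elim0) (fun i => i.elim0) (fun i => i.elim0) m (2 * n) a hm hm1 (by omega) (by
      push_cast
      have := hpow δ1 hδ1'
      linarith) (fun l hl => by
      obtain ⟨x, g1, g2, g3⟩ := loc (2 * n) a m 1 (by rw [e]; exact hcop) (fun l hl _ =>
        loc2 hl (by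
          have : (2 * n) ^ 2 + 1 = 2 * (2 * n ^ 2) + 1 := by ring
          omega) (loc3 _).1 (fun l hl hd => by
          right
          exact (Nat.prime_dvd_prime_iff_eq hl (by norm_num)).1 hd)) l hl
      exact ⟨x, g1, g2, g3, fun i => i.elim0⟩)
    refine ⟨S, hS, fun q hq => ?_⟩
    obtain ⟨g1, g2, g3, g4, g5, -⟩ := h4 q hq
    rw [e] at g5
    exact ⟨g1, g2, g3, g4, g5⟩
  · intro hcop
    obtain ⟨S, hS, h4⟩ := h2 X hXb (fun i => i.elim0) (fun i => i.elim0) (fun i => i.elim0) m (2 * n + 1) a hm hm2 (by omega) (by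
      push_cast
      have := hpow δ2 hδ2'
      linarith) (fun l hl => by
      obtain ⟨x, g1, g2, g3⟩ := loc (2 * n + 1) a m 4 hcop (fun l hl _ =>
        loc2 hl (by
          have : (2 * n + 1) ^ 2 + 4 = 2 * (2 * n ^ 2 + 2 * n + 2) + 1 := by ring
          omega) (loc3 _).2 (fun l hl hd => by
          have h5 : l ∣ 2 * 2 * 3 := by exact_mod_cast hd
          rcases (Nat.Prime.dvd_mul hl).1 h5 with h6 | h6
          · rcases (Nat.Prime.dvd_mul hl).1 h6 with h7 | h7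
            · exact Or.inl ((Nat.prime_dvd_prime_iff_eq hl (by norm_num)).1 h7)
            · exact Or.inl ((Nat.prime_dvd_prime_iff_eq hl (by norm_num)).1 h7)
          · exact Or.inr ((Nat.prime_dvd_prime_iff_eq hl (by norm_num)).1 h6))) l hl
      exact ⟨x, g1, g2, g3, fun i => i.elim0⟩)
    refine ⟨S, hS, fun q hq => ?_⟩
    obtain ⟨g1, g2, g3, g4, g5, -⟩ := h4 q hq
    exact ⟨g1, g2, g3, g4, g5⟩

end Pool.Agent.Results.MP_4b1228_nt.FivePrimeFactorsUniform
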